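import Mathlib

set_option linter.all false

/-!
# AM, part E: telescoping sums over the levels and number of the active levels
-/

namespace Pool.Agent.AM.G

open Finset




theorem tel0 (f : ℤ → ℝ) (M : ℝ) (h0 : ∀ k, 0 ≤ f k) (hM : ∀ k, f k ≤ M) (a : ℤ) (T q : ℕ) :
    ∑ t ∈ range T, (f (a + t + q) - f (a + t)) ≤ q * M := by
  have h1 : ∀ t ∈ range T, f (a + t + q) - f (a + t) =
      ∑ j ∈ range q, (f (a + t + (j + 1 : ℕ)) - f (a + t + (j : ℕ))) := by
    intro t _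
    rw [Finset.sum_range_sub (fun j : ℕ => f (a + t + (j : ℤ)))]
    simp
  rw [Finset.sum_congr rfl h1, Finset.sum_comm]
  have h2 : ∀ j ∈ range q, ∑ t ∈ range T, (f (a + t + (j + 1 : ℕ)) - f (a + t + (j : ℕ))) ≤ M := by
    intro j _
    have h3 : ∀ t ∈ range T, f (a + t + (j + 1 : ℕ)) - f (a + t + (j : ℕ)) =
        (fun t : ℕ => f (a + j + t)) (t + 1) - (fun t : ℕ => f (a + j + t)) t := by
      intro t _
      have e1 : a + t + ((j + 1 : ℕ) : ℤ) = a + j + ((t + 1 : ℕ) : ℤ) := by push_cast; ring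
      have e2 : a + t + ((j : ℕ) : ℤ) = a + j + ((t : ℕ) : ℤ) := by ring
      simp only [e1, e2]
    rw [Finset.sum_congr rfl h3]
    have h4 := Finset.sum_range_sub (fun t : ℕ => f (a + j + t)) T
    rw [h4]
    have := h0 (a + j + (0 : ℕ))
    have := hM (a + j + (T : ℕ))
    linarith
  refine (Finset.sum_le_card_nsmul _ _ M h2).trans ?_
  rw [card_range, nsmul_eq_mul]

theorem tel (f : ℤ → ℝ) (M : ℝ) (q : ℕ) (hf : Monotone f) (h0 : ∀ k, 0 ≤ f k)
    (hM : ∀ k, f k ≤ M) (S : Finset ℤ) : ∑ k ∈ S, (f (k + q) - f k) ≤ q * M := by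
  obtain ⟨a, T, hS⟩ : ∃ (a : ℤ) (T : ℕ), S ⊆ (range T).image (fun t : ℕ => a + (t : ℤ)) := by
    obtain ⟨a, ha⟩ := S.bddBelow
    obtain ⟨b, hb⟩ := S.bddAbove
    refine ⟨a, (b - a + 1).toNat, fun k hk => ?_⟩
    have h1 := ha hk
    have h2 := hb hk
    rw [mem_image]
    refine ⟨(k - a).toNat, ?_, ?_⟩
    · rw [mem_range]; omega
    · omega
  have h1 : ∀ k, 0 ≤ f (k + q) - f k := fun k => sub_nonneg.2 (hf (by omega))
  refine (Finset.sum_le_sum_of_subset_of_nonneg hS (fun k _ _ => h1 k)).trans ?_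
  rw [Finset.sum_image (by intro t _ t' _ h; simpa using h)]
  exact tel0 f M h0 hM a T q

theorem cnt (d u v : ℝ) (n : ℕ) (hu : 0 < u) (hv : 0 < v) (huv : 1 ≤ u * v) (S : Finset ℤ)
    (hS : ∀ k ∈ S, (4 : ℝ) ^ k ≤ u * d ∧ d ≤ v * 4 ^ (k + n)) :
    (S.card : ℝ) ≤ n + 1 + Real.log (u * v) := by
  have hlog : 0 ≤ Real.log (u * v) := Real.log_nonneg huv
  rcases S.eq_empty_or_nonempty with rfl | hne
  · simp; positivity
  obtain ⟨b, hb⟩ : ∃ b, b = S.max' hne := ⟨_, rfl⟩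
  obtain ⟨a, ha⟩ : ∃ a, a = S.min' hne := ⟨_, rfl⟩
  have hbS : b ∈ S := by rw [hb]; exact S.max'_mem hne
  have haS : a ∈ S := by rw [ha]; exact S.min'_mem hne
  have hab : a ≤ b := by rw [hb]; exact S.le_max' a haS
  have hsub : S ⊆ Icc a b := fun k hk => by
    rw [mem_Icc, ha, hb]
    exact ⟨S.min'_le k hk, S.le_max' k hk⟩
  have hcard : (S.card : ℝ) ≤ (b - a + 1 : ℤ) := by
    have h1 := Finset.card_le_card hsub
    rw [Int.card_Icc] at h1
    have h2 : (S.card : ℤ) ≤ b - a + 1 := by omega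
    exact_mod_cast h2
  have h1 := (hS b hbS).1
  have h2 := (hS a haS).2
  have h3 : (4 : ℝ) ^ b ≤ u * v * 4 ^ (a + n) := by
    calc (4 : ℝ) ^ b ≤ u * d := h1
      _ ≤ u * (v * 4 ^ (a + n)) := mul_le_mul_of_nonneg_left h2 hu.le
      _ = _ := by ring
  have h4 : (b : ℝ) * Real.log 4 ≤ Real.log (u * v) + (a + n : ℤ) * Real.log 4 := by
    have h5 := Real.log_le_log (by positivity) h3
    rw [Real.log_zpow, Real.log_mul (by positivity) (by positivity), Real.log_zpow] at h5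
    exact h5
  have hl4 : 1 ≤ Real.log 4 := by
    have : Real.log 4 = 2 * Real.log 2 := by
      rw [show (4 : ℝ) = 2 ^ 2 by norm_num, Real.log_pow]; norm_num
    rw [this]
    have := Real.log_two_gt_d9
    linarith
  have h6 : (b - a - n : ℝ) ≤ Real.log (u * v) := by
    by_contra h7
    push Not at h7
    push_cast at h4
    nlinarith
  push_cast at hcard
  linarith

end Pool.Agent.AM.G
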