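import Pool.Agent.Lib.AM.SpecE2

set_option linter.all false

namespace Pool.Agent.AM.G

open Finset Pool.Agent.MP_a4c1f4_lc Pool.Agent.AM

private theorem Bsum_min (y : ℝ) (hy : 0 < y) : 1 / min 1 y ≤ 1 + 1 / y := by
  rcases le_total 1 y with h | h
  · rw [min_eq_left h]
    have : 0 < 1 / y := by positivity
    linarith
  · rw [min_eq_right h]
    linarith

private theorem Bsum_geo (n : ℕ) : ∑ i ∈ range n, ((1 : ℝ) / 2) ^ (n - i) ≤ 1 := by
  have h : ∀ n : ℕ, ∑ i ∈ range n, ((1 : ℝ) / 2) ^ (n - i) = 1 - (1 / 2) ^ n := by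
    intro n
    induction n with
    | zero => simp
    | succ n ih =>
      rw [Finset.sum_range_succ]
      have h1 : ∑ i ∈ range n, ((1 : ℝ) / 2) ^ (n + 1 - i) =
          (1 / 2) * ∑ i ∈ range n, ((1 : ℝ) / 2) ^ (n - i) := by
        rw [Finset.mul_sum]
        apply Finset.sum_congr rfl
        intro i hi
        have hi' : i < n := Finset.mem_range.1 hi
        have : n + 1 - i = (n - i) + 1 := by omega
        rw [this, pow_succ]
        ring
      rw [h1, ih]
      have : n + 1 - n = 1 := by omega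
      rw [this, pow_succ]
      ring
  rw [h n]
  have : (0 : ℝ) ≤ (1 / 2) ^ n := by positivity
  linarith

theorem bsumProp : BsumProp := by
  intro P m K' C0 s2 c hP hK' hC0 hB
  have hm : (1 : ℝ) ≤ m := by exact_mod_cast hP.m_pos
  have hlog : 0 ≤ Real.log m := Real.log_nonneg hm
  have hL : 3 ≤ P.L := by rw [hP.hL]; linarith
  have hL0 : 0 ≤ P.L := by linarith
  have hs : 1 ≤ Real.sqrt P.L := by
    rw [Real.one_le_sqrt]
    linarith
  have hsq : Real.sqrt P.L * Real.sqrt P.L = P.L := Real.mul_self_sqrt hL0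
  have hn := hB.n_le
  have hbeta : P.beta = Real.sqrt P.L := hB.beta
  obtain ⟨q, hq⟩ : ∃ q : ℝ, q = Real.sqrt P.L := ⟨_, rfl⟩
  rw [← hq] at hs hsq hn hbeta ⊢
  have hq0 : 0 < q := by linarith
  have hLam : P.Lam = 8 * (q * q) := by rw [hP.hLam, hsq]
  have hLb : 8 * P.Lam / P.beta = 64 * q := by
    rw [hLam, hbeta]
    field_simp
    ring
  have hLam0 : 0 < P.Lam := by rw [hLam]; positivity
  have hb0 : 0 < P.beta := by rw [hbeta]; exact hq0
  have hr : ∀ i, 0 < rrc c i := fun i => by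
    unfold rrc
    positivity
  have hr1 : ∀ i, rrc c (i + 1) = 4 * rrc c i := by
    intro i
    unfold rrc
    push_cast
    rw [← add_assoc, zpow_add_one₀ (by norm_num : (4 : ℝ) ≠ 0)]
    ring
  have hy : ∀ i, 0 < P.beta / (8 * P.Lam) * 2 ^ (P.n - i) := fun i => by positivity
  have hmin : ∀ i, 0 < min 1 (P.beta / (8 * P.Lam) * 2 ^ (P.n - i)) := fun i =>
    lt_min one_pos (hy i)
  have hinv : ∀ i, 1 / (P.beta / (8 * P.Lam) * 2 ^ (P.n - i)) = 64 * q * (1 / 2) ^ (P.n - i) := by
    intro i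
    rw [← hLb, div_pow, one_pow]
    have : (2 : ℝ) ^ (P.n - i) ≠ 0 := by positivity
    field_simp
  have hterm : ∀ i ∈ range P.n, rrc c (i + 1) / mm P c i ≤
      4 + 4 * (64 * q) * (1 / 2) ^ (P.n - i) := by
    intro i _
    rcases Nat.eq_zero_or_pos i with h0 | h0
    · subst h0
      rw [hr1]
      unfold mm
      rw [if_pos rfl]
      have hKb : 1 ≤ P.K * P.beta := by
        have h1 := hP.hK
        have h2 := hP.hbeta
        nlinarith
      have e : 4 * rrc c 0 / (P.K * P.beta * rrc c 0) = 4 / (P.K * P.beta) := by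
        have := (hr 0).ne'
        field_simp
      rw [e]
      have h3 : 4 / (P.K * P.beta) ≤ 4 := by
        rw [div_le_iff₀ (by linarith)]
        linarith
      have h4 : 0 ≤ 4 * (64 * q) * (1 / 2) ^ (P.n - 0) := by positivity
      linarith
    · rw [hr1]
      unfold mm
      rw [if_neg (by omega)]
      have e : 4 * rrc c i / (min 1 (P.beta / (8 * P.Lam) * 2 ^ (P.n - i)) * rrc c i) =
          4 * (1 / min 1 (P.beta / (8 * P.Lam) * 2 ^ (P.n - i))) := by
        have h1 := (hr i).ne'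
        have h2 := (hmin i).ne'
        rw [mul_one_div, mul_div_mul_right _ _ h1]
      rw [e]
      have h5 := Bsum_min _ (hy i)
      rw [hinv i] at h5
      linarith
  have hsum : ∑ i ∈ range P.n, rrc c (i + 1) / mm P c i ≤ 4 * P.n + 4 * (64 * q) := by
    refine (Finset.sum_le_sum hterm).trans ?_
    rw [Finset.sum_add_distrib, ← Finset.mul_sum, Finset.sum_const, Finset.card_range,
      nsmul_eq_mul]
    have h6 := Bsum_geo P.n
    have h7 : 4 * (64 * q) * ∑ i ∈ range P.n, ((1 : ℝ) / 2) ^ (P.n - i) ≤ 4 * (64 * q) * 1 :=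
      mul_le_mul_of_nonneg_left h6 (by positivity)
    linarith
  have hlast : rrc c P.n / mm P c P.n ≤ 1 + 64 * q := by
    have hn1 := hP.hn
    unfold mm
    rw [if_neg (by omega)]
    have e : rrc c P.n / (min 1 (P.beta / (8 * P.Lam) * 2 ^ (P.n - P.n)) * rrc c P.n) =
        1 / min 1 (P.beta / (8 * P.Lam) * 2 ^ (P.n - P.n)) := by
      have h1 := (hr P.n).ne'
      have h2 := (hmin P.n).ne'
      field_simp
    rw [e]
    have h5 := Bsum_min _ (hy P.n)
    rw [hinv P.n] at h5
    have h8 : ((1 : ℝ) / 2) ^ (P.n - P.n) = 1 := by simp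
    rw [h8] at h5
    linarith
  have hthird : (2 + Real.log m) * rrc c P.n / (P.beta * rrc c P.n) ≤ q := by
    rw [mul_div_mul_right _ _ (hr P.n).ne', hbeta, div_le_iff₀ hq0, hsq, hP.hL]
    linarith
  have hC : q ≤ C0 * q := by nlinarith
  nlinarith [hsum, hlast, hthird, hn, hC, hs]

end Pool.Agent.AM.G
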