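import Pool.Agent.Lib.AM.SpecE2

set_option linter.all false

namespace Pool.Agent.AM.G

open Finset Pool.Agent.MP_a4c1f4_lc Pool.Agent.AM

private theorem Cprod_alg (b q K F A : ℝ) (hb : 0 < b) (hq : 0 < q) (hK : 0 < K) (hF : 0 < F) :
    b * q * (1 / (K * b * q) + A / (b * (q * F))) = 1 / K + A / F := by
  have h1 : b ≠ 0 := hb.ne'
  have h2 : q ≠ 0 := hq.ne'
  have h3 : K ≠ 0 := hK.ne'
  have h4 : F ≠ 0 := hF.ne'
  field_simp

theorem cprodProp : CprodProp := by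
  intro P m K' C0 s2 c hP hK' hC0 hB
  have h4 : (0 : ℝ) < 4 := by norm_num
  have hq : (0 : ℝ) < (4 : ℝ) ^ c := zpow_pos h4 c
  have hF : (0 : ℝ) < (4 : ℝ) ^ P.n := pow_pos h4 _
  have hb : 0 < P.beta := lt_of_lt_of_le one_pos hP.hbeta
  have hK : 0 < P.K := lt_of_lt_of_le one_pos hP.hK
  have hK0 : 0 < K' := lt_of_lt_of_le one_pos hK'
  have e1 : rrc (c - P.n) P.n = (4 : ℝ) ^ c := by
    unfold rrc
    congr 1
    ring
  have e2 : mm P c 0 = P.K * P.beta * (4 : ℝ) ^ c := by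
    unfold mm rrc
    simp
  have e3 : rrc c P.n = (4 : ℝ) ^ c * (4 : ℝ) ^ P.n := by
    unfold rrc
    rw [zpow_add₀ h4.ne', zpow_natCast]
  rw [e1, e2, e3, Cprod_alg P.beta ((4 : ℝ) ^ c) P.K ((4 : ℝ) ^ P.n)
    ((2 + Real.log m) * (P.Lam + 1)) hb hq hK hF]
  have hm : (1 : ℝ) ≤ m := by exact_mod_cast hP.m_pos
  have hlog : 0 ≤ Real.log m := Real.log_nonneg hm
  have hL : Real.log m = P.L - 3 := by rw [hP.hL]; ring
  have hL3 : 3 ≤ P.L := by rw [hP.hL]; linarith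
  have h1 : 1 / P.K ≤ 1 / (2 * K') := one_div_le_one_div_of_le (by positivity) hB.K2
  have h2 : (2 + Real.log m) * (P.Lam + 1) ≤ P.Lam ^ 2 := by
    rw [hL, hP.hLam]
    nlinarith
  have h3 : (2 + Real.log m) * (P.Lam + 1) / (4 : ℝ) ^ P.n ≤ 1 / (2 * K') := by
    rw [div_le_div_iff₀ hF (by positivity)]
    have h5 := hB.big
    nlinarith
  have h6 : 1 / (2 * K') + 1 / (2 * K') = 1 / K' := by
    field_simp
    norm_num
  linarith

end Pool.Agent.AM.G
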