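import Pool.Agent.Lib.AM.SpecE2

set_option linter.all false

namespace Pool.Agent.AM.G

open Finset Pool.Agent.MP_a4c1f4_lc Pool.Agent.AM

private theorem Geom_rrc_pos (c : ℤ) (i : ℕ) : 0 < rrc c i := by
  unfold rrc
  positivity

/-- The geometric part as it is used by the algorithm. -/
theorem geomProp (hPar : ParProp) (hB : BlkProp) (hNo : NoiseProp) (hPm : PmProp) (hW : WsumProp)
    (hBs : BsumProp) (hC : CprodProp) : GeomProp := by
  intro K' hK'
  obtain ⟨C1, hC1, hP⟩ := hPar K' hK'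
  have h4 : C1 ≤ C1 ^ 4 := by
    calc C1 = C1 ^ 1 := (pow_one C1).symm
      _ ≤ C1 ^ 4 := pow_le_pow_right₀ hC1 (by norm_num)
  have h40 : (0 : ℝ) ≤ C1 ^ 4 := by positivity
  refine ⟨400 * C1 ^ 4, by linarith, ?_⟩
  intro X _ _ _ D hD
  obtain ⟨P, s2, hOK, hBd⟩ := hP (Fintype.card X) Fintype.card_pos
  have hlog : 0 ≤ Real.log (Fintype.card X : ℝ) := by
    apply Real.log_nonneg
    exact_mod_cast hOK.m_pos
  have hL : 0 ≤ P.L := by rw [hOK.hL]; linarith
  have hs : 0 ≤ Real.sqrt P.L := Real.sqrt_nonneg _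
  refine ⟨P.n, P.L, P.Lam, P.beta, P.K, fun N c => blk P D N c, hOK.hL, hOK.hLam, hBd.beta, hOK.hK,
    hOK.hn, ?_, fun _ _ => rfl, fun _ _ => rfl, fun _ _ _ => rfl, fun _ _ _ => rfl, ?_,
    fun _ _ _ => ⟨rfl, rfl⟩, ?_, ?_, ?_, ?_, ?_⟩
  · calc (P.n : ℝ) ≤ C1 * Real.sqrt P.L := hBd.n_le
      _ ≤ (400 * C1 ^ 4) * Real.sqrt P.L := mul_le_mul_of_nonneg_right (by linarith) hs
  · intro N c
    show mm P c 0 = _
    unfold mm rrc
    simp
  · intro N c cl hN hcl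
    exact hB X D P N c cl hD hOK hN hcl
  · intro N c
    have h := hBs P (Fintype.card X) K' C1 s2 c hOK hK' hC1 hBd
    calc _ ≤ 400 * C1 * Real.sqrt P.L := h
      _ ≤ 400 * C1 ^ 4 * Real.sqrt P.L := mul_le_mul_of_nonneg_right (by linarith) hs
  · intro N c
    exact hC P (Fintype.card X) K' C1 s2 c hOK hK' hC1 hBd
  · intro N x o S
    have h := hW X D P K' C1 s2 N hD hOK hK' hC1 hBd x o S
    calc _ ≤ 60 * C1 ^ 4 * P.n * P.L * (1 + Real.log P.L) ^ 2 * D x o := h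
      _ ≤ 400 * C1 ^ 4 * P.n * P.L * (1 + Real.log P.L) ^ 2 * D x o := by
        have h1 : 0 ≤ C1 ^ 4 * P.n * P.L * (1 + Real.log P.L) ^ 2 * D x o := by
          have := hD.nonneg x o
          positivity
        nlinarith [h1]
  · intro N c i x o h0
    refine (hPm X D P (rrc c i) (mm P c i) hD hOK (Geom_rrc_pos c i)
      ((hNo P (Fintype.card X) c hOK).1 i)).2.2 x o ?_
    rw [h0]
    have := (Geom_rrc_pos c i).le
    positivity

end Pool.Agent.AM.G
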