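import Pool.Agent.Lib.AM.G.Rad

set_option linter.all false

/-!
# AM, part G: balls, the counting lemma, the radius lemma with ball volumes
-/

namespace Pool.Agent.AM.G

open Finset Pool.Agent.MP_a4c1f4_lc

section
variable {X : Type} [Fintype X] {D : X → X → ℝ}

theorem nb_pos (hD : PM D) {r : ℝ} (hr : 0 ≤ r) (x : X) : 1 ≤ nb D r x := by
  classical
  unfold nb
  rw [Nat.one_le_iff_ne_zero, Finset.card_ne_zero]
  exact ⟨x, by simp [hD.self x, hr]⟩

theorem nb_le_card (r : ℝ) (x : X) : nb D r x ≤ Fintype.card X := by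
  classical
  unfold nb
  exact Finset.card_le_univ _

/-- `B(x, r) ⊆ B(z, s)` if `r + D(x, z) ≤ s`. -/
theorem nb_le_nb (hD : PM D) {r s : ℝ} {x z : X} (h : r + D x z ≤ s) : nb D r x ≤ nb D s z := by
  classical
  unfold nb
  refine Finset.card_le_card fun w hw => ?_
  simp only [Finset.mem_filter, Finset.mem_univ, true_and] at hw ⊢
  have := hD.tri w x z
  linarith

theorem nb_mono (hD : PM D) {r s : ℝ} (h : r ≤ s) (x : X) : nb D r x ≤ nb D s x :=
  nb_le_nb hD (by rw [hD.self x]; linarith)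

/-- The neighbourhoods are not crowded. -/
theorem count (hD : PM D) {nr : ℝ} (hnr : 0 ≤ nr) (x : X) :
    ∑ z : X, ind (D x z ≤ nr) * Real.exp (-Real.log (nb D (2 * nr) z : ℝ)) ≤ 1 := by
  classical
  have h1 : (1 : ℝ) ≤ (nb D nr x : ℝ) := by exact_mod_cast nb_pos hD hnr x
  have key : ∀ z : X, ind (D x z ≤ nr) * Real.exp (-Real.log (nb D (2 * nr) z : ℝ)) ≤
      ind (D x z ≤ nr) * (1 / (nb D nr x : ℝ)) := by
    intro z
    by_cases hz : D x z ≤ nr
    · rw [ind_true hz, one_mul, one_mul]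
      have h2 : (nb D nr x : ℝ) ≤ (nb D (2 * nr) z : ℝ) := by
        exact_mod_cast nb_le_nb hD (by linarith)
      have h3 : (0 : ℝ) < (nb D (2 * nr) z : ℝ) := by linarith
      rw [Real.exp_neg, Real.exp_log h3, ← one_div]
      exact one_div_le_one_div_of_le (by linarith) h2
    · rw [ind_false hz, zero_mul, zero_mul]
  refine (Finset.sum_le_sum fun z _ => key z).trans ?_
  rw [← Finset.sum_mul]
  have h4 : ∑ z : X, ind (D x z ≤ nr) = (nb D nr x : ℝ) := by
    unfold nb ind
    rw [Finset.sum_boole]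
    congr 2
    ext w
    simp [hD.symm w x]
  rw [h4, mul_one_div, div_self (by linarith)]

/-- The radius lemma with ball volumes: `d` is a contraction of `D`, `r` the scale, `Rn` the
neighbourhood radius, `de` the coverage radius, `E` the noise with mean `mu`. -/
theorem radC (hD : PM D) {d : X → X → ℝ} (hd : PM d) {r mu kap a b1 L Lam Rn de : ℝ}
    (hr : 0 < r) (hmu : 0 < mu) (hdD : ∀ x y, d x y ≤ D x y)
    (hDd : ∀ x y, D x y ≤ d x y + r / 8) (hkap0 : 0 < kap) (hb1 : 0 ≤ b1) (ha : a = b1 + 5)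
    (hL : Real.log (Fintype.card X : ℝ) ≤ L) (hLL : 0 ≤ L)
    (hde : kap * (de * (L + a)) ≤ r) (hde0 : 0 ≤ de)
    (hRn : r * ((Lam + 1) / (kap * a) + 1 / 8) ≤ Rn)
    (hkap : 4 * (1 + Real.log (L + a)) ≤ kap) (hRn0 : 0 ≤ Rn) (E : X → ℝ) (hE0 : ∀ z, 0 ≤ E z)
    (hE : ∀ z, E z ≤ mu * Lam)
    (hcov : ∀ y, ∃ z', D y z' ≤ de ∧ Real.log (nb D de y : ℝ) - b1 ≤ E z' / mu) (x z : X)
    (hz : ∀ z', E z' - kap * (mu / r) *
        chn d (fun y => Real.log ((nb D (4 * Rn) y : ℝ) / (nb D de y : ℝ)) + a) x z' ≤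
      E z - kap * (mu / r) *
        chn d (fun y => Real.log ((nb D (4 * Rn) y : ℝ) / (nb D de y : ℝ)) + a) x z)
    (hdR : de ≤ 4 * Rn) :
    D x z ≤ r / 2 * (1 + max 0 (E z / mu - Real.log (nb D (2 * Rn) z : ℝ) - 2)) := by
  classical
  set G : X → ℝ := fun y => Real.log ((nb D (4 * Rn) y : ℝ) / (nb D de y : ℝ)) + a with hGdef
  set e := max 0 (E z / mu - Real.log (nb D (2 * Rn) z : ℝ) - 2) with he
  have he0 : 0 ≤ e := le_max_left _ _
  have hez : E z / mu ≤ Real.log (nb D (2 * Rn) z : ℝ) + 2 + e := by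
    have := le_max_right 0 (E z / mu - Real.log (nb D (2 * Rn) z : ℝ) - 2)
    linarith
  have hp1 : ∀ y, (1 : ℝ) ≤ (nb D de y : ℝ) := fun y => by exact_mod_cast nb_pos hD hde0 y
  have hp4 : ∀ y, (nb D de y : ℝ) ≤ (nb D (4 * Rn) y : ℝ) := fun y => by
    exact_mod_cast nb_mono hD hdR y
  have hGlog : ∀ y, G y = Real.log (nb D (4 * Rn) y : ℝ) - Real.log (nb D de y : ℝ) + a := by
    intro y
    have h1 := hp1 y
    have h2 := hp4 y
    rw [hGdef]
    simp only
    rw [Real.log_div (by linarith) (by linarith)]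
  have hGa : ∀ y, a ≤ G y := by
    intro y
    rw [hGlog y]
    have := Real.log_le_log (by linarith [hp1 y]) (hp4 y)
    linarith
  have hG1 : ∀ y, 1 ≤ G y := fun y => by linarith [hGa y]
  have hGL : ∀ y, G y ≤ L + a := by
    intro y
    rw [hGlog y]
    have h1 : (nb D (4 * Rn) y : ℝ) ≤ (Fintype.card X : ℝ) := by exact_mod_cast nb_le_card _ y
    have h2 := Real.log_le_log (by linarith [hp1 y, hp4 y]) h1
    have h3 := Real.log_nonneg (hp1 y)
    linarith
  have hG0 : ∀ y, 0 ≤ G y := fun y => by linarith [hG1 y]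
  have ha5 : 0 < a := by linarith
  have hc : 0 < kap * (mu / r) := by positivity
  have hownx : kap * (mu / r) * chn d G x z ≤ mu * Lam := by
    have h1 := hz x
    rw [chn_self hd hG0 x, mul_zero, sub_zero] at h1
    linarith [hE0 x, hE z]
  have hnear : ∀ y, kap * (mu / r) * chn d G y z ≤ kap * (mu / r) * chn d G x z + mu →
      D y z ≤ Rn := by
    intro y hy
    have h1 : kap * (mu / r) * (a * d y z) ≤ mu * (Lam + 1) := by
      have := mul_le_mul_of_nonneg_left (chn_ge hd ha5.le hGa y z) hc.le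
      linarith
    have h2 : d y z ≤ r * ((Lam + 1) / (kap * a)) := by
      have h3 : d y z = (kap * (mu / r) * (a * d y z)) * (r / (kap * a * mu)) := by
        field_simp
      rw [h3]
      calc (kap * (mu / r) * (a * d y z)) * (r / (kap * a * mu))
          ≤ (mu * (Lam + 1)) * (r / (kap * a * mu)) :=
            mul_le_mul_of_nonneg_right h1 (by positivity)
        _ = r * ((Lam + 1) / (kap * a)) := by field_simp
    have h4 := hDd y z
    linarith
  have hR := rad (d := d) (G := G) hd hG1 hc hmu E x z hz he0 (by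
    intro y hy
    obtain ⟨z', h1, h2⟩ := hcov y
    refine ⟨z', ?_, ?_⟩
    · have h3 := chn_le_one (d := d) (G := G) hd hG0 y z'
      have h4 : max (G y) (G z') ≤ L + a := max_le (hGL y) (hGL z')
      have h5 : d y z' * max (G y) (G z') ≤ de * (L + a) :=
        mul_le_mul ((hdD y z').trans h1) h4 (le_max_of_le_left (hG0 y)) hde0
      calc kap * (mu / r) * chn d G y z' ≤ kap * (mu / r) * (de * (L + a)) :=
            mul_le_mul_of_nonneg_left (h3.trans h5) hc.le
        _ = mu / r * (kap * (de * (L + a))) := by ring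
        _ ≤ mu / r * r := mul_le_mul_of_nonneg_left hde (by positivity)
        _ = mu := by field_simp
    · have h3 := hnear y hy
      have h4 : (nb D (2 * Rn) z : ℝ) ≤ (nb D (4 * Rn) y : ℝ) := by
        have : nb D (2 * Rn) z ≤ nb D (4 * Rn) y :=
          nb_le_nb hD (by rw [hD.symm z y]; linarith)
        exact_mod_cast this
      have h5 : (1 : ℝ) ≤ (nb D (2 * Rn) z : ℝ) := by
        exact_mod_cast nb_pos hD (by linarith) z
      have h6 := Real.log_le_log (by linarith) h4
      rw [hGlog y]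
      linarith)
  have hcm : kap * (mu / r) / mu = kap / r := by field_simp
  rw [hcm] at hR
  have h7 : Real.log (G x) ≤ Real.log (L + a) :=
    Real.log_le_log (by linarith [hG1 x]) (hGL x)
  have h8 : 0 ≤ Real.log (L + a) := Real.log_nonneg (by linarith)
  have h9 : kap / r * d x z ≤ kap / 4 * (1 + e) := by
    have : 1 + Real.log (L + a) ≤ kap / 4 := by linarith
    nlinarith
  have h10 : d x z ≤ r / 4 * (1 + e) := by
    have h11 : d x z = (kap / r * d x z) * (r / kap) := by field_simp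
    rw [h11]
    calc (kap / r * d x z) * (r / kap) ≤ (kap / 4 * (1 + e)) * (r / kap) :=
          mul_le_mul_of_nonneg_right h9 (by positivity)
      _ = r / 4 * (1 + e) := by field_simp
  have h12 := hDd x z
  nlinarith

end

end Pool.Agent.AM.G
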