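import Pool.Agent.Lib.AM.SpecE
import Pool.Agent.Lib.AM.G.Cnt

set_option linter.all false

/-!
# AM, part G: telescoping sums, the sum of the growths over the levels
-/

namespace Pool.Agent.AM.G

open Finset Pool.Agent.MP_a4c1f4_lc

/-- Increments of a bounded monotone function. -/
theorem incr {f : ℤ → ℝ} (hf : Monotone f) {M : ℝ} (h0 : ∀ k, 0 ≤ f k) (h1 : ∀ k, f k ≤ M)
    (A : Finset ℤ) : ∑ k ∈ A, (f (k + 1) - f k) ≤ M := by
  classical
  rcases A.eq_empty_or_nonempty with h | h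
  · rw [h, Finset.sum_empty]
    exact (h0 0).trans (h1 0)
  · set lo := A.min' h with hlo
    set hi := A.max' h with hhi
    have hlh : lo ≤ hi := Finset.min'_le_max' A h
    obtain ⟨n, hn⟩ := Int.eq_ofNat_of_zero_le (sub_nonneg.2 hlh)
    have hsub : A ⊆ (range (n + 1)).map ⟨fun i : ℕ => lo + (i : ℤ), fun i j hij => by
        simpa using hij⟩ := by
      intro k hk
      have h2 : lo ≤ k := Finset.min'_le A k hk
      have h3 : k ≤ hi := Finset.le_max' A k hk
      rw [Finset.mem_map]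
      refine ⟨(k - lo).toNat, ?_, ?_⟩
      · rw [Finset.mem_range]
        omega
      · simp only [Function.Embedding.coeFn_mk]
        omega
    refine (Finset.sum_le_sum_of_subset_of_nonneg hsub fun k _ _ =>
      sub_nonneg.2 (hf (by omega))).trans ?_
    rw [Finset.sum_map]
    simp only [Function.Embedding.coeFn_mk]
    have h4 : ∀ N : ℕ, ∑ i ∈ range N, (f (lo + (i : ℤ) + 1) - f (lo + (i : ℤ))) =
        f (lo + (N : ℤ)) - f lo := by
      intro N
      induction N with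
      | zero => simp
      | succ N ih =>
        rw [Finset.sum_range_succ, ih]
        push_cast
        rw [add_assoc lo (N : ℤ) 1]
        ring
    rw [h4 (n + 1)]
    linarith [h1 (lo + ((n + 1 : ℕ) : ℤ)), h0 lo]

/-- Telescoping with steps of length `p + q`. -/
theorem tele {f : ℤ → ℝ} (hf : Monotone f) {M : ℝ} (h0 : ∀ k, 0 ≤ f k) (h1 : ∀ k, f k ≤ M)
    (p q : ℕ) (A : Finset ℤ) :
    ∑ k ∈ A, (f (k + (p : ℤ)) - f (k - (q : ℤ))) ≤ ((p : ℝ) + q) * M := by
  have h2 : ∀ (t : ℕ) (k : ℤ), f (k - (q : ℤ) + (t : ℤ)) - f (k - (q : ℤ)) =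
      ∑ i ∈ range t, (f (k - (q : ℤ) + (i : ℤ) + 1) - f (k - (q : ℤ) + (i : ℤ))) := by
    intro t k
    induction t with
    | zero => simp
    | succ t ih =>
      rw [Finset.sum_range_succ, ← ih]
      push_cast
      rw [add_assoc (k - (q : ℤ)) (t : ℤ) 1]
      ring
  have h3 : ∀ k : ℤ, f (k + (p : ℤ)) - f (k - (q : ℤ)) =
      ∑ i ∈ range (p + q), (f (k - (q : ℤ) + (i : ℤ) + 1) - f (k - (q : ℤ) + (i : ℤ))) := by
    intro k
    rw [← h2 (p + q) k]
    congr 2
    push_cast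
    ring
  simp_rw [h3]
  rw [Finset.sum_comm]
  have h4 : ∀ i ∈ range (p + q), ∑ k ∈ A,
      (f (k - (q : ℤ) + (i : ℤ) + 1) - f (k - (q : ℤ) + (i : ℤ))) ≤ M := by
    intro i _
    have hg : Monotone fun k : ℤ => f (k - (q : ℤ) + (i : ℤ)) := fun a b hab => hf (by omega)
    have := incr (f := fun k : ℤ => f (k - (q : ℤ) + (i : ℤ))) hg (fun k => h0 _) (fun k => h1 _) A
    refine le_trans (le_of_eq ?_) this
    refine Finset.sum_congr rfl fun k _ => ?_
    have e : k + 1 - (q : ℤ) + (i : ℤ) = k - (q : ℤ) + (i : ℤ) + 1 := by ring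
    show f (k - (q : ℤ) + (i : ℤ) + 1) - f (k - (q : ℤ) + (i : ℤ)) =
      f (k + 1 - (q : ℤ) + (i : ℤ)) - f (k - (q : ℤ) + (i : ℤ))
    rw [e]
  refine (Finset.sum_le_sum h4).trans ?_
  rw [Finset.sum_const, Finset.card_range, nsmul_eq_mul]
  push_cast
  exact le_rfl

theorem logb4 (k : ℤ) : Real.logb 4 ((4 : ℝ) ^ k) = (k : ℝ) := by
  rw [← Real.rpow_intCast, Real.logb_rpow (by norm_num) (by norm_num)]

/-- Number of the active levels. -/
theorem act {u v : ℝ} (hu : 0 < u) (hv : 0 < v) (huv : v ≤ 4 * u) (A : Finset ℤ)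
    (hA : ∀ k ∈ A, (4 : ℝ) ^ k ≤ u ∧ v ≤ (4 : ℝ) ^ k) :
    (A.card : ℝ) ≤ Real.logb 4 (u / v) + 1 := by
  classical
  rcases A.eq_empty_or_nonempty with h | h
  · rw [h, Finset.card_empty, Nat.cast_zero]
    have h2 : Real.logb 4 (1 / 4) ≤ Real.logb 4 (u / v) := by
      apply Real.logb_le_logb_of_le (by norm_num) (by norm_num)
      rw [div_le_div_iff₀ (by norm_num) hv]
      linarith
    have h3 : Real.logb 4 (1 / 4) = -1 := by
      rw [one_div, Real.logb_inv, Real.logb_self_eq_one (by norm_num)]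
    linarith
  · set lo := A.min' h with hlo
    set hi := A.max' h with hhi
    have hlh : lo ≤ hi := Finset.min'_le_max' A h
    have hcard : (A.card : ℤ) ≤ hi - lo + 1 := by
      have hsub : A ⊆ Finset.Icc lo hi := fun k hk =>
        Finset.mem_Icc.2 ⟨Finset.min'_le A k hk, Finset.le_max' A k hk⟩
      have := Finset.card_le_card hsub
      rw [Int.card_Icc] at this
      omega
    have hcard' : (A.card : ℝ) ≤ (hi : ℝ) - lo + 1 := by exact_mod_cast hcard
    have h1 := (hA hi (Finset.max'_mem A h)).1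
    have h2 := (hA lo (Finset.min'_mem A h)).2
    have h3 : (hi : ℝ) ≤ Real.logb 4 u := by
      have := Real.logb_le_logb_of_le (b := 4) (by norm_num) (by positivity) h1
      rwa [logb4] at this
    have h4 : Real.logb 4 v ≤ (lo : ℝ) := by
      have := Real.logb_le_logb_of_le (b := 4) (by norm_num) hv h2
      rwa [logb4] at this
    rw [Real.logb_div hu.ne' hv.ne']
    linarith

section
variable {X : Type} [Fintype X] [DecidableEq X] [Nonempty X]

/-- The sum of the growths over a set of levels. -/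
theorem growth {D : X → X → ℝ} (hD : PM D) (P : Prm) (hdl : 0 < P.dl) {s2 : ℕ}
    (hs2 : (4 : ℝ) ^ (-(s2 : ℤ)) ≤ P.dl) (hdl4 : P.dl ≤ 4) (A : Finset ℤ) (y : X) :
    ∑ k ∈ A, Gk P D ((4 : ℝ) ^ k) y ≤
      ((P.js : ℝ) + 1 + s2) * Real.log (Fintype.card X : ℝ) + P.a * A.card := by
  set f : ℤ → ℝ := fun k => Real.log (nb D ((4 : ℝ) ^ k) y : ℝ) with hf
  have hpos : ∀ k : ℤ, (1 : ℝ) ≤ (nb D ((4 : ℝ) ^ k) y : ℝ) := fun k => by
    exact_mod_cast nb_pos hD (by positivity) y
  have hmono : Monotone f := by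
    intro a b hab
    refine Real.log_le_log (by linarith [hpos a]) ?_
    exact_mod_cast nb_mono hD (zpow_le_zpow_right₀ (by norm_num) hab) y
  have h0 : ∀ k, 0 ≤ f k := fun k => Real.log_nonneg (hpos k)
  have h1 : ∀ k, f k ≤ Real.log (Fintype.card X : ℝ) := fun k => by
    refine Real.log_le_log (by linarith [hpos k]) ?_
    exact_mod_cast nb_le_card _ y
  have key : ∀ k ∈ A, Gk P D ((4 : ℝ) ^ k) y ≤
      (f (k + ((P.js + 1 : ℕ) : ℤ)) - f (k - (s2 : ℤ))) + P.a := by
    intro k _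
    unfold Gk
    have e1 : (4 : ℝ) * (4 ^ P.js * (4 : ℝ) ^ k) = (4 : ℝ) ^ (k + ((P.js + 1 : ℕ) : ℤ)) := by
      rw [zpow_add₀ (by norm_num), zpow_natCast, pow_succ]
      ring
    have e2 : (4 : ℝ) ^ (k - (s2 : ℤ)) ≤ P.dl * (4 : ℝ) ^ k := by
      rw [sub_eq_add_neg, zpow_add₀ (by norm_num), mul_comm]
      exact mul_le_mul_of_nonneg_right hs2 (by positivity)
    have e3 : (1 : ℝ) ≤ (nb D (P.dl * (4 : ℝ) ^ k) y : ℝ) := by
      exact_mod_cast nb_pos hD (by positivity) y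
    have e4 : (nb D ((4 : ℝ) ^ (k - (s2 : ℤ))) y : ℝ) ≤ (nb D (P.dl * (4 : ℝ) ^ k) y : ℝ) := by
      exact_mod_cast nb_mono hD e2 y
    have e5 := Real.log_le_log (by linarith [hpos (k - (s2 : ℤ))]) e4
    rw [e1, Real.log_div (by linarith [hpos (k + ((P.js + 1 : ℕ) : ℤ))]) (by linarith)]
    linarith
  refine (Finset.sum_le_sum key).trans ?_
  rw [Finset.sum_add_distrib, Finset.sum_const, nsmul_eq_mul]
  have h2 := tele hmono h0 h1 (P.js + 1) s2 A
  push_cast at h2 ⊢
  linarith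

end

end Pool.Agent.AM.G
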