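import Pool.Agent.Lib.AM.SpecE2
import Pool.Agent.Lib.AM.G.Tele

set_option linter.all false

/-!
# AM, part G: sum of the growths over the active levels
-/

namespace Pool.Agent.AM.G

open Finset Pool.Agent.MP_a4c1f4_lc Pool.Agent.AM

theorem gsumProp : GsumProp := by
  intro X _ _ _ D P s2 hD hP hs2 d S hS y
  have hm : (1 : ℝ) ≤ (Fintype.card X : ℝ) := by
    have : 0 < Fintype.card X := Fintype.card_pos
    exact_mod_cast this
  have hlog : 0 ≤ Real.log (Fintype.card X : ℝ) := Real.log_nonneg hm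
  have hL : P.L = Real.log (Fintype.card X : ℝ) + 3 := hP.hL
  have hLam : P.Lam = 8 * P.L := hP.hLam
  have ha : P.a = P.b1 + 5 := hP.ha
  have hb1 := hP.hb1
  have ha0 : 0 ≤ P.a := by linarith
  have hkap : 4 ≤ P.kap := by
    have h1 := hP.hkap
    have h2 : 0 ≤ Real.log (1 + P.L + P.a) := Real.log_nonneg (by linarith)
    linarith
  have hdl4 : P.dl ≤ 4 := by
    have h1 := hP.hdl'
    have h2 := hP.hdl
    have h3 : 1 ≤ P.L + P.a := by linarith
    have h4 : 4 * 1 ≤ P.kap * (P.L + P.a) := mul_le_mul hkap h3 (by norm_num) (by linarith)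
    nlinarith
  have h4s : (4 : ℝ) ^ (-(s2 : ℤ)) ≤ P.dl := by
    rw [zpow_neg, zpow_natCast]
    rw [inv_le_iff_one_le_mul₀ (by positivity)]
    linarith
  have h1 := growth hD P hP.hdl h4s hdl4 S y
  have h2 := cnt d (8 * (Fintype.card X : ℝ)) (2 * (P.Lam + 1)) P.n (by positivity) (by linarith)
    (by nlinarith) S hS
  have h3 : ((P.js : ℝ) + 1 + s2) * Real.log (Fintype.card X : ℝ) ≤
      ((P.js : ℝ) + 1 + s2) * P.L :=
    mul_le_mul_of_nonneg_left (by linarith) (by positivity)
  have h4 := mul_le_mul_of_nonneg_left h2 ha0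
  linarith

end Pool.Agent.AM.G
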