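import Pool.Agent.Lib.AM.SpecE2

set_option linter.all false

namespace Pool.Agent.AM.G

open Finset Pool.Agent.MP_a4c1f4_lc Pool.Agent.AM

private theorem Lev_mm {P : Prm} {m : ℕ} (h : P.OK m) (c : ℤ) (i : ℕ) :
    mm P c i / rrc c i ≤ (if i = 0 then P.K * P.beta else 1) := by
  have hr : 0 < rrc c i := by unfold rrc; positivity
  rw [div_le_iff₀ hr]
  unfold mm
  by_cases hi : i = 0
  · subst hi
    simp
  · rw [if_neg hi, if_neg hi]
    exact mul_le_mul_of_nonneg_right (min_le_left _ _) hr.le

theorem levProp (hNo : NoiseProp) (hPm : PmProp) (hG : GsumProp) : LevProp := by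
  classical
  intro X _ _ _ D P s2 hD hP hs2 x o S i
  have hm : (1 : ℝ) ≤ (Fintype.card X : ℝ) := by
    have : 0 < Fintype.card X := Fintype.card_pos
    exact_mod_cast this
  have hlog : 0 ≤ Real.log (Fintype.card X : ℝ) := Real.log_nonneg hm
  have hL : P.L = Real.log (Fintype.card X : ℝ) + 3 := hP.hL
  have ha : P.a = P.b1 + 5 := hP.ha
  have hb1 := hP.hb1
  have hkap : 0 ≤ P.kap := by
    have h1 := hP.hkap
    have h2 : 0 ≤ Real.log (1 + P.L + P.a) := Real.log_nonneg (by linarith)
    linarith
  have hd : 0 ≤ D x o := hD.nonneg x o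
  obtain ⟨b, hb⟩ : ∃ b : ℝ, b = (if i = 0 then P.K * P.beta else 1) := ⟨_, rfl⟩
  have hb0 : 0 ≤ b := by
    rw [hb]
    split_ifs
    · exact mul_nonneg (by linarith [hP.hK]) (by linarith [hP.hbeta])
    · norm_num
  obtain ⟨Q, hQ⟩ : ∃ Q : ℝ, Q = (P.js + 1 + s2) * P.L +
      P.a * (P.n + 1 + Real.log (8 * (Fintype.card X : ℝ) * (2 * (P.Lam + 1)))) := ⟨_, rfl⟩
  rw [← hb, ← hQ]
  obtain ⟨A, hA⟩ : ∃ A : Finset ℤ, A = S.filter (fun c : ℤ => (4 : ℝ) ^ (c + (i : ℤ)) ≤
      8 * (Fintype.card X : ℝ) * D x o ∧ D x o ≤ 2 * (P.Lam + 1) * rrc c P.n) := ⟨_, rfl⟩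
  have hLam : 0 ≤ P.Lam := by
    have h1 := hP.hLam
    linarith
  have hgr : ∀ y, ∑ c ∈ A, Gk P D (rrc c i) y ≤ Q := by
    intro y
    have h1 := hG X D P s2 hD hP hs2 (D x o) (A.image (fun c : ℤ => c + (i : ℤ))) (by
      intro k hk
      rw [mem_image] at hk
      obtain ⟨c, hc, rfl⟩ := hk
      rw [hA, mem_filter] at hc
      refine ⟨hc.2.1, hc.2.2.trans ?_⟩
      unfold rrc
      refine mul_le_mul_of_nonneg_left ?_ (by linarith)
      exact zpow_le_zpow_right₀ (by norm_num) (by omega)) y
    rw [Finset.sum_image (by intro c _ c' _ h; simpa using h)] at h1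
    rw [hQ]
    exact h1
  have hterm : ∀ c ∈ S, ind (D x o ≤ 2 * (P.Lam + 1) * rrc c P.n) *
      dpl P D (rrc c i) (mm P c i) x o ≤
      (if c ∈ A then P.kap * b * D x o * (Gk P D (rrc c i) x + Gk P D (rrc c i) o) else 0) := by
    intro c hc
    have hr : 0 < rrc c i := by unfold rrc; positivity
    have hmu : 0 < mm P c i := (hNo P (Fintype.card X) c hP).1 i
    obtain ⟨hpm, hup, hz⟩ := hPm X D P (rrc c i) (mm P c i) hD hP hr hmu
    by_cases h1 : D x o ≤ 2 * (P.Lam + 1) * rrc c P.n
    · rw [ind_true h1, one_mul]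
      by_cases h2 : (4 : ℝ) ^ (c + (i : ℤ)) ≤ 8 * (Fintype.card X : ℝ) * D x o
      · have hcA : c ∈ A := by rw [hA, mem_filter]; exact ⟨hc, h2, h1⟩
        rw [if_pos hcA]
        refine (hup x o).trans ?_
        have h0 := hpm.nonneg x o
        have h5 := (hup x o)
        have h3 : mm P c i / rrc c i ≤ b := by rw [hb]; exact Lev_mm hP c i
        by_cases h4 : 0 ≤ Gk P D (rrc c i) x + Gk P D (rrc c i) o
        · refine mul_le_mul_of_nonneg_right ?_ h4
          refine mul_le_mul_of_nonneg_right ?_ hd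
          exact mul_le_mul_of_nonneg_left h3 hkap
        · push Not at h4
          have hk : 0 < P.kap * (mm P c i / rrc c i) := by
            have h6 := hP.hkap
            have h7 : 0 ≤ Real.log (1 + P.L + P.a) := Real.log_nonneg (by linarith)
            exact mul_pos (by linarith) (div_pos hmu hr)
          have hd0 : D x o = 0 := by
            by_contra h8
            have h9 : 0 < D x o := lt_of_le_of_ne hd (Ne.symm h8)
            have h10 := mul_neg_of_pos_of_neg (mul_pos hk h9) h4
            linarith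
          rw [hd0]
          simp
      · have h3 : dpl P D (rrc c i) (mm P c i) x o = 0 := by
          apply hz
          rw [le_div_iff₀ (by positivity)]
          push Not at h2
          unfold rrc
          linarith
        rw [h3]
        split_ifs with hcA
        · exfalso
          rw [hA, mem_filter] at hcA
          exact h2 hcA.2.1
        · exact le_refl _
    · rw [ind_false h1, zero_mul]
      split_ifs with hcA
      · exfalso
        rw [hA, mem_filter] at hcA
        exact h1 hcA.2.2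
      · exact le_refl _
  refine (Finset.sum_le_sum hterm).trans ?_
  rw [← Finset.sum_filter]
  have hAS : S.filter (fun c => c ∈ A) = A := by
    ext c
    rw [mem_filter, hA, mem_filter]
    tauto
  rw [hAS, ← Finset.mul_sum, Finset.sum_add_distrib]
  refine mul_le_mul_of_nonneg_left ?_ (mul_nonneg (mul_nonneg hkap hb0) hd)
  have := hgr x
  have := hgr o
  linarith

end Pool.Agent.AM.G
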