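import Mathlib

set_option linter.all false

/-!
# AM, part E: choice of the numbers
-/

namespace Pool.Agent.AM.G

theorem exps (y : ℝ) (hy : 1 ≤ y) : ∃ s : ℕ, y ≤ 4 ^ s ∧ (s : ℝ) ≤ 1 + Real.log y := by
  have hl : 0 ≤ Real.log y := Real.log_nonneg hy
  refine ⟨⌈Real.log y⌉₊, ?_, ?_⟩
  · have h1 : Real.log y ≤ (⌈Real.log y⌉₊ : ℝ) := Nat.le_ceil _
    have h2 : Real.exp 1 ≤ 4 := by
      have := Real.exp_one_lt_d9
      linarith
    calc y = Real.exp (Real.log y) := (Real.exp_log (by linarith)).symm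
      _ ≤ Real.exp (⌈Real.log y⌉₊ : ℝ) := Real.exp_le_exp.2 h1
      _ = Real.exp 1 ^ ⌈Real.log y⌉₊ := by rw [← Real.exp_nat_mul, mul_one]
      _ ≤ 4 ^ ⌈Real.log y⌉₊ := pow_le_pow_left₀ (Real.exp_pos 1).le h2 _
  · have := (Nat.ceil_lt_add_one hl).le
    linarith

/-- `a` -/
noncomputable def ap (L : ℝ) : ℝ := Real.log (1 + 8 * L) + 5

/-- `kap` -/
noncomputable def kp (L : ℝ) : ℝ := 4 * (1 + Real.log (1 + 2 * L + ap L))

theorem ap_ge (L : ℝ) (hL : 3 ≤ L) : 5 ≤ ap L := by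
  unfold ap
  have := Real.log_nonneg (show (1 : ℝ) ≤ 1 + 8 * L by linarith)
  linarith

theorem ap_le (L : ℝ) (hL : 3 ≤ L) : ap L ≤ 10 * L := by
  unfold ap
  have := Real.log_le_sub_one_of_pos (show (0 : ℝ) < 1 + 8 * L by linarith)
  linarith

theorem ap_log (L : ℝ) (hL : 3 ≤ L) : ap L ≤ 15 * (1 + Real.log L) := by
  unfold ap
  have h0 : 0 ≤ Real.log L := Real.log_nonneg (by linarith)
  have h1 : Real.log (1 + 8 * L) ≤ Real.log (9 * L) := Real.log_le_log (by linarith) (by linarith)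
  have h2 : Real.log (9 * L) = Real.log 9 + Real.log L :=
    Real.log_mul (by norm_num) (by linarith)
  have h3 := Real.log_le_sub_one_of_pos (show (0 : ℝ) < 9 by norm_num)
  linarith

theorem kp_ge (L : ℝ) (hL : 3 ≤ L) : 4 ≤ kp L := by
  unfold kp
  have := ap_ge L hL
  have := Real.log_nonneg (show (1 : ℝ) ≤ 1 + 2 * L + ap L by linarith)
  linarith

theorem kp_le (L : ℝ) (hL : 3 ≤ L) : kp L ≤ 50 * L := by
  unfold kp
  have := ap_ge L hL
  have := ap_le L hL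
  have := Real.log_le_sub_one_of_pos (show (0 : ℝ) < 1 + 2 * L + ap L by linarith)
  linarith

theorem kp_log (L : ℝ) (hL : 3 ≤ L) : kp L ≤ 60 * (1 + Real.log L) := by
  unfold kp
  have h0 : 0 ≤ Real.log L := Real.log_nonneg (by linarith)
  have := ap_ge L hL
  have := ap_le L hL
  have h1 : Real.log (1 + 2 * L + ap L) ≤ Real.log (13 * L) :=
    Real.log_le_log (by linarith) (by linarith)
  have h2 : Real.log (13 * L) = Real.log 13 + Real.log L :=
    Real.log_mul (by norm_num) (by linarith)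
  have h3 := Real.log_le_sub_one_of_pos (show (0 : ℝ) < 13 by norm_num)
  linarith

theorem pow4 (x : ℝ) (hx : 0 ≤ x) : x ^ 4 ≤ 16 * 4 ^ (2 * ⌈x⌉₊) := by
  have h1 : x ≤ (⌈x⌉₊ : ℝ) := Nat.le_ceil _
  have h2 : x / 2 ≤ Real.exp (x / 2) := by
    have := Real.add_one_le_exp (x / 2)
    linarith
  have h3 : Real.exp 1 ≤ 4 := by
    have := Real.exp_one_lt_d9
    linarith
  calc x ^ 4 = 16 * (x / 2) ^ 4 := by ring
    _ ≤ 16 * Real.exp (x / 2) ^ 4 := by
        have := pow_le_pow_left₀ (by positivity) h2 4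
        linarith
    _ = 16 * Real.exp (2 * x) := by
        rw [← Real.exp_nat_mul]
        congr 2
        push_cast
        ring
    _ ≤ 16 * Real.exp (((2 * ⌈x⌉₊ : ℕ) : ℝ)) := by
        have : Real.exp (2 * x) ≤ Real.exp (((2 * ⌈x⌉₊ : ℕ) : ℝ)) :=
          Real.exp_le_exp.2 (by push_cast; linarith)
        linarith
    _ = 16 * Real.exp 1 ^ (2 * ⌈x⌉₊) := by rw [← Real.exp_nat_mul, mul_one]
    _ ≤ _ := by
        have := pow_le_pow_left₀ (Real.exp_pos 1).le h3 (2 * ⌈x⌉₊)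
        linarith

/-- The choice of the numbers. -/
theorem choice (K : ℝ) (hK : 2 ≤ K) : ∃ C : ℝ, 1 ≤ C ∧ ∀ L : ℝ, 3 ≤ L → ∃ n s js s2 : ℕ,
    1 ≤ n ∧ 256 * K * (8 * L) ^ 2 ≤ 4 ^ s ∧ 4 ^ s * (16 * (8 * L)) ≤ 4 ^ js ∧
    256 * K * (8 * L) ^ 2 ≤ 4 ^ n ∧ kp L * (L + ap L) ≤ 4 ^ s2 ∧
    Real.sqrt L ≤ n ∧ (n : ℝ) ≤ C * Real.sqrt L ∧
    (s : ℝ) ≤ C * (1 + Real.log L) ∧ (js : ℝ) ≤ C * (1 + Real.log L) ∧
    (s2 : ℝ) ≤ C * (1 + Real.log L) ∧ ap L ≤ C * (1 + Real.log L) ∧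
    kp L ≤ C * (1 + Real.log L) := by
  obtain ⟨n0, hn0, -⟩ := exps (16 * (16384 * K)) (by linarith)
  obtain ⟨c1, hc1⟩ : ∃ c1, c1 = 3 + Real.log (16384 * K) := ⟨_, rfl⟩
  have hc10 : 0 ≤ Real.log (16384 * K) := Real.log_nonneg (by linarith)
  have hl4 : Real.log 4 ≤ 3 := by
    have := Real.log_le_sub_one_of_pos (show (0 : ℝ) < 4 by norm_num)
    linarith
  have hl40 : 0 ≤ Real.log 4 := Real.log_nonneg (by norm_num)
  have hcc : 1 ≤ 100 * c1 + (n0 + 4) + 1000 := by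
    have : (0 : ℝ) ≤ n0 := Nat.cast_nonneg _
    rw [hc1]
    linarith
  refine ⟨100 * c1 + (n0 + 4) + 1000, hcc, fun L hL => ?_⟩
  have hlL : 0 ≤ Real.log L := Real.log_nonneg (by linarith)
  have hx1 : 1 ≤ Real.sqrt L := by
    rw [show (1 : ℝ) = Real.sqrt 1 by simp]
    exact Real.sqrt_le_sqrt (by linarith)
  have hxx : Real.sqrt L ^ 2 = L := Real.sq_sqrt (by linarith)
  obtain ⟨s, hs1, hs2⟩ := exps (256 * K * (8 * L) ^ 2) (by nlinarith)
  have hs3 : (s : ℝ) ≤ c1 * (1 + Real.log L) := by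
    have e : 256 * K * (8 * L) ^ 2 = (16384 * K) * L ^ 2 := by ring
    rw [e, Real.log_mul (by positivity) (by positivity), Real.log_pow] at hs2
    push_cast at hs2
    rw [hc1]
    nlinarith
  have h4s : (1 : ℝ) ≤ 4 ^ s := one_le_pow₀ (by norm_num)
  obtain ⟨js, hj1, hj2⟩ := exps (4 ^ s * (16 * (8 * L))) (by nlinarith)
  have hj3 : (js : ℝ) ≤ (100 * c1) * (1 + Real.log L) := by
    have e : 4 ^ s * (16 * (8 * L)) = (128 * 4 ^ s) * L := by ring
    rw [e, Real.log_mul (by positivity) (by positivity), Real.log_mul (by positivity) (by positivity),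
      Real.log_pow] at hj2
    have h5 := Real.log_le_sub_one_of_pos (show (0 : ℝ) < 128 by norm_num)
    have h6 : (s : ℝ) * Real.log 4 ≤ s * 3 := mul_le_mul_of_nonneg_left hl4 (Nat.cast_nonneg _)
    have h7 : 3 ≤ c1 := by rw [hc1]; linarith
    nlinarith
  have ha := ap_ge L hL
  have ha' := ap_le L hL
  have hk := kp_ge L hL
  have hk' := kp_le L hL
  obtain ⟨s2, ht1, ht2⟩ := exps (kp L * (L + ap L)) (by nlinarith)
  have ht3 : (s2 : ℝ) ≤ 600 * (1 + Real.log L) := by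
    have h5 : kp L * (L + ap L) ≤ 550 * L ^ 2 := by nlinarith
    have h6 : Real.log (kp L * (L + ap L)) ≤ Real.log (550 * L ^ 2) :=
      Real.log_le_log (by nlinarith) h5
    have h8 : Real.log (550 * L ^ 2) = Real.log 550 + (2 : ℕ) * Real.log L := by
      rw [Real.log_mul (by positivity) (by positivity), Real.log_pow]
    rw [h8] at h6
    have h7 := Real.log_le_sub_one_of_pos (show (0 : ℝ) < 550 by norm_num)
    push_cast at h6
    linarith
  have hC : ∀ u v : ℝ, 0 ≤ v → u ≤ c1 * 100 → u * v ≤ (100 * c1 + (n0 + 4) + 1000) * v := by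
    intro u v hv hu
    have : (0 : ℝ) ≤ n0 := Nat.cast_nonneg _
    exact mul_le_mul_of_nonneg_right (by linarith) hv
  have hC' : ∀ u v : ℝ, 0 ≤ v → u ≤ 1000 → u * v ≤ (100 * c1 + (n0 + 4) + 1000) * v := by
    intro u v hv hu
    have : (0 : ℝ) ≤ n0 := Nat.cast_nonneg _
    have : 0 ≤ c1 := by rw [hc1]; linarith
    exact mul_le_mul_of_nonneg_right (by linarith) hv
  have hc1' : 0 ≤ c1 := by rw [hc1]; linarith
  refine ⟨n0 + 2 * ⌈Real.sqrt L⌉₊, s, js, s2, ?_, hs1, hj1, ?_, ht1, ?_, ?_, ?_, ?_, ?_, ?_, ?_⟩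
  · have : 0 < ⌈Real.sqrt L⌉₊ := Nat.ceil_pos.2 (by linarith)
    omega
  · have h5 := pow4 (Real.sqrt L) (by linarith)
    have h6 : 256 * K * (8 * L) ^ 2 = 16384 * K * Real.sqrt L ^ 4 := by
      have : Real.sqrt L ^ 4 = L ^ 2 := by rw [← hxx]; ring_nf; rw [hxx]
      rw [this]; ring
    rw [h6, pow_add]
    have h7 : 16384 * K * Real.sqrt L ^ 4 ≤ 16384 * K * (16 * 4 ^ (2 * ⌈Real.sqrt L⌉₊)) :=
      mul_le_mul_of_nonneg_left h5 (by positivity)
    have h8 : (0 : ℝ) < 4 ^ (2 * ⌈Real.sqrt L⌉₊) := by positivity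
    nlinarith
  · have h5 : Real.sqrt L ≤ (⌈Real.sqrt L⌉₊ : ℝ) := Nat.le_ceil _
    push_cast
    have : (0 : ℝ) ≤ n0 := Nat.cast_nonneg _
    linarith
  · have h5 := (Nat.ceil_lt_add_one (show 0 ≤ Real.sqrt L by linarith)).le
    push_cast
    have : (0 : ℝ) ≤ n0 := Nat.cast_nonneg _
    nlinarith
  · exact hs3.trans (hC _ _ (by linarith) (by linarith))
  · exact hj3.trans (hC _ _ (by linarith) (by linarith))
  · exact ht3.trans (hC' _ _ (by linarith) (by linarith))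
  · exact (ap_log L hL).trans (hC' _ _ (by linarith) (by linarith))
  · exact (kp_log L hL).trans (hC' _ _ (by linarith) (by linarith))

end Pool.Agent.AM.G
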