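import Pool.Agent.Lib.AM.SpecE2
import Pool.Agent.Lib.AM.G.Num

set_option linter.all false

/-!
# AM, part E: choice of the parameters
-/

namespace Pool.Agent.AM.G

open Finset Pool.Agent.MP_a4c1f4_lc Pool.Agent.AM

theorem parProp : ParProp := by
  intro K' hK'
  obtain ⟨C, hC, h⟩ := choice (2 * K') (by linarith)
  refine ⟨C + 2 * K', by linarith, fun m hm => ?_⟩
  obtain ⟨L, hL⟩ : ∃ L : ℝ, L = Real.log m + 3 := ⟨_, rfl⟩
  have hm1 : (1 : ℝ) ≤ m := by exact_mod_cast hm
  have hL3 : 3 ≤ L := by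
    have := Real.log_nonneg hm1
    linarith
  obtain ⟨n, s, js, s2, hn, hs, hjs, hnn, hs2, hbn, hn', hs', hjs', hs2', ha', hk'⟩ := h L hL3
  have hlL : 0 ≤ Real.log L := Real.log_nonneg (by linarith)
  have ha := ap_ge L hL3
  have hk := kp_ge L hL3
  have hx1 : 1 ≤ Real.sqrt L := by
    rw [show (1 : ℝ) = Real.sqrt 1 by simp]
    exact Real.sqrt_le_sqrt (by linarith)
  have hxx : Real.sqrt L ^ 2 = L := Real.sq_sqrt (by linarith)
  have hC' : ∀ v : ℝ, 0 ≤ v → C * v ≤ (C + 2 * K') * v := fun v hv =>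
    mul_le_mul_of_nonneg_right (by linarith) hv
  have hka : 0 < kp L * (L + ap L) := mul_pos (by linarith) (by linarith)
  refine ⟨Prm.mk n (8 * L) L (Real.sqrt L) (2 * K') (kp L) (ap L) (Real.log (1 + 8 * L))
    (1 / (kp L * (L + ap L))) s js, s2,
    ?_, ?_⟩
  · refine ⟨hm, hL, rfl, hn, hx1, ?_, ?_, ?_, ?_, rfl, ?_, ?_, ?_, ?_, hjs, ?_⟩
    · show Real.sqrt L ≤ 8 * (8 * L)
      nlinarith
    · show (1 : ℝ) ≤ 2 * K'
      linarith
    · exact Real.log_nonneg (by linarith)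
    · show 4 * L + 4 ≤ Real.exp (Real.log (1 + 8 * L))
      rw [Real.exp_log (by linarith)]
      linarith
    · show 4 * (1 + Real.log (1 + L + ap L)) ≤ kp L
      unfold kp
      have := Real.log_le_log (show (0 : ℝ) < 1 + L + ap L by linarith)
        (show 1 + L + ap L ≤ 1 + 2 * L + ap L by linarith)
      linarith
    · exact div_pos one_pos hka
    · show kp L * (L + ap L) * (1 / (kp L * (L + ap L))) ≤ 1
      rw [mul_one_div_cancel hka.ne']
    · show 256 * (2 * K') * (8 * L) ^ 2 ≤ 4 ^ s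
      exact hs
    · show 4 * (2 * K') * (8 * L) ≤ 4 ^ n
      refine le_trans ?_ hnn
      have h1 : (1 : ℝ) ≤ 8 * L := by linarith
      have h2 : 0 ≤ (2 * K') * (8 * L) := mul_nonneg (by linarith) (by linarith)
      have h3 : 4 * (2 * K') * (8 * L) = 4 * ((2 * K') * (8 * L)) := by ring
      have h4 : 256 * (2 * K') * (8 * L) ^ 2 = 256 * ((2 * K') * (8 * L)) * (8 * L) := by ring
      rw [h3, h4]
      nlinarith
  · refine ⟨rfl, hbn, hn'.trans (hC' _ (by positivity)), le_refl _, ?_, ?_, ?_,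
      hjs'.trans (hC' _ (by linarith)), hs2'.trans (hC' _ (by linarith)),
      ha'.trans (hC' _ (by linarith)), hk'.trans (hC' _ (by linarith))⟩
    · show 2 * K' ≤ C + 2 * K'
      linarith
    · show 2 * K' * (8 * L) ^ 2 ≤ 4 ^ n
      refine le_trans ?_ hnn
      have : 0 ≤ (2 * K') * (8 * L) ^ 2 := by positivity
      nlinarith
    · show (1 : ℝ) ≤ 4 ^ s2 * (1 / (kp L * (L + ap L)))
      rw [mul_one_div, le_div_iff₀ hka, one_mul]
      exact hs2

end Pool.Agent.AM.G
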