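import Pool.Agent.Lib.AM.SpecE2

set_option linter.all false

/-!
# AM, part E: sum of the metrics over all the blocks
-/

namespace Pool.Agent.AM.G

open Finset Pool.Agent.MP_a4c1f4_lc Pool.Agent.AM

private theorem Wsum_sum (n : ℕ) (k b d g : ℝ) :
    ∑ i ∈ range (n + 1), k * (if i = 0 then b else 1) * d * g = k * (b + n) * d * g := by
  rw [Finset.sum_range_succ']
  simp only [Nat.add_eq_zero_iff, one_ne_zero, and_false, if_false, if_true, sum_const, card_range,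
    nsmul_eq_mul]
  ring

private theorem Wsum_num (kap K beta n C0 Q L a js s2 A d : ℝ) (hC0 : 1 ≤ C0) (hQ : 1 ≤ Q)
    (hL : 3 ≤ L) (hd : 0 ≤ d) (hn0 : 0 ≤ n) (hkap0 : 0 ≤ kap) (ha0 : 0 ≤ a) (hbeta0 : 0 ≤ beta)
    (hK0 : 0 ≤ K)
    (hbn : beta ≤ n) (hK : K ≤ C0) (hkap : kap ≤ C0 * Q) (ha : a ≤ C0 * Q) (hjs : js ≤ C0 * Q)
    (hs2 : s2 ≤ C0 * Q) (hn : n ≤ C0 * L) (hA : A ≤ 9 * L) :
    kap * (K * beta + n) * d * (2 * ((js + 1 + s2) * L + a * (n + 1 + A))) ≤
      60 * C0 ^ 4 * n * L * Q ^ 2 * d := by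
  have hCQ : 1 ≤ C0 * Q := by nlinarith
  have hCL : 3 ≤ C0 * L := by nlinarith
  have h1 : K * beta + n ≤ 2 * C0 * n := by
    have := mul_le_mul hK hbn hbeta0 (by linarith)
    nlinarith
  have h2 : (js + 1 + s2) * L ≤ 3 * (C0 * Q) * L :=
    mul_le_mul_of_nonneg_right (by linarith) (by linarith)
  have hCL' : L ≤ C0 * L := le_mul_of_one_le_left (by linarith) hC0
  have h3 : n + 1 + A ≤ 11 * (C0 * L) := by linarith
  have h4 : a * (n + 1 + A) ≤ (C0 * Q) * (11 * (C0 * L)) := by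
    refine (mul_le_mul_of_nonneg_left h3 ha0).trans ?_
    exact mul_le_mul_of_nonneg_right ha (by linarith)
  have h5 : (js + 1 + s2) * L + a * (n + 1 + A) ≤ 14 * C0 ^ 2 * Q * L := by
    have hQL : 0 ≤ C0 * Q * L := by positivity
    have h6 : C0 * Q * L ≤ C0 * (C0 * Q * L) := le_mul_of_one_le_left hQL hC0
    nlinarith
  have h7 : kap * (K * beta + n) ≤ (C0 * Q) * (2 * C0 * n) := by
    refine (mul_le_mul_of_nonneg_left h1 hkap0).trans ?_
    exact mul_le_mul_of_nonneg_right hkap (by positivity)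
  have h8 : kap * (K * beta + n) * d ≤ (C0 * Q) * (2 * C0 * n) * d :=
    mul_le_mul_of_nonneg_right h7 hd
  have hneg : 0 ≤ kap * (K * beta + n) * d := by positivity
  have h9 : kap * (K * beta + n) * d * (2 * ((js + 1 + s2) * L + a * (n + 1 + A))) ≤
      kap * (K * beta + n) * d * (2 * (14 * C0 ^ 2 * Q * L)) :=
    mul_le_mul_of_nonneg_left (by linarith) hneg
  refine h9.trans ?_
  have h10 : kap * (K * beta + n) * d * (2 * (14 * C0 ^ 2 * Q * L)) ≤
      (C0 * Q) * (2 * C0 * n) * d * (2 * (14 * C0 ^ 2 * Q * L)) :=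
    mul_le_mul_of_nonneg_right h8 (by positivity)
  refine h10.trans ?_
  have h11 : 0 ≤ C0 ^ 4 * n * L * Q ^ 2 * d := by positivity
  have h12 : (C0 * Q) * (2 * C0 * n) * d * (2 * (14 * C0 ^ 2 * Q * L)) =
      56 * (C0 ^ 4 * n * L * Q ^ 2 * d) := by ring
  have h13 : 60 * C0 ^ 4 * n * L * Q ^ 2 * d = 60 * (C0 ^ 4 * n * L * Q ^ 2 * d) := by ring
  rw [h12, h13]
  linarith

private theorem Wsum_log (m L Lam : ℝ) (hm : 1 ≤ m) (hL : L = Real.log m + 3) (hLam : Lam = 8 * L) :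
    Real.log (8 * m * (2 * (Lam + 1))) ≤ 9 * L := by
  have hlm : 0 ≤ Real.log m := Real.log_nonneg hm
  have hm0 : 0 < m := by linarith
  have e1 : 8 * m * (2 * (Lam + 1)) = 2 ^ 4 * (m * (Lam + 1)) := by ring
  have h1 : 0 < Lam + 1 := by rw [hLam, hL]; positivity
  rw [e1, Real.log_mul (by norm_num) (by positivity), Real.log_mul hm0.ne' h1.ne', Real.log_pow]
  have h2 : Real.log (Lam + 1) ≤ 8 * L := by
    have := Real.log_le_sub_one_of_pos h1
    rw [hLam] at this ⊢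
    linarith
  have h3 := Real.log_two_lt_d9
  push_cast
  linarith

theorem wsumProp (hL : LevProp) : WsumProp := by
  intro X _ _ _ D P K' C0 s2 N hD hP hK' hC0 hB x o S
  have hm : (1 : ℝ) ≤ (Fintype.card X : ℝ) := by exact_mod_cast hP.m_pos
  have hlm : 0 ≤ Real.log (Fintype.card X : ℝ) := Real.log_nonneg hm
  have hL3 : 3 ≤ P.L := by rw [hP.hL]; linarith
  have hlL : 0 ≤ Real.log P.L := Real.log_nonneg (by linarith)
  have key := fun i => hL X D P s2 hD hP hB.sml x o S i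
  have e1 : ∑ c ∈ S, ind (D x o ≤ 2 * (P.Lam + 1) * rrc c P.n) * (blk P D N c).W x o =
      ∑ i ∈ range (P.n + 1), ∑ c ∈ S, ind (D x o ≤ 2 * (P.Lam + 1) * rrc c P.n) *
        dpl P D (rrc c i) (mm P c i) x o := by
    rw [Finset.sum_comm]
    refine Finset.sum_congr rfl fun c _ => ?_
    simp only [Blk.W, blk, Finset.mul_sum]
  rw [e1]
  refine (Finset.sum_le_sum fun i _ => key i).trans ?_
  rw [Wsum_sum]
  have hsq : Real.sqrt P.L ≤ P.L := by
    rw [Real.sqrt_le_left (by linarith)]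
    nlinarith
  have hkap0 : 0 ≤ P.kap := by
    have h := hP.hkap
    have ha := hP.ha
    have hb := hP.hb1
    have h1 : 0 ≤ Real.log (1 + P.L + P.a) := Real.log_nonneg (by linarith)
    linarith
  refine Wsum_num P.kap P.K P.beta P.n C0 (1 + Real.log P.L) P.L P.a P.js s2 _ (D x o) hC0
    (by linarith) hL3 (hD.nonneg x o) (Nat.cast_nonneg _) hkap0 (by linarith [hP.ha, hP.hb1])
    (by linarith [hP.hbeta]) (by linarith [hP.hK]) hB.betan hB.K_le hB.kap_le hB.a_le hB.js_le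
    hB.s2_le ?_ ?_
  · exact hB.n_le.trans (mul_le_mul_of_nonneg_left hsq (by linarith))
  · exact Wsum_log _ _ _ hm hP.hL hP.hLam

end Pool.Agent.AM.G
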