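import Pool.Agent.Lib.AM.G.AllG
import Pool.Agent.Lib.AM.G.Par
import Pool.Agent.Lib.AM.G.Gsum
import Pool.Agent.Lib.AM.G.Lev
import Pool.Agent.Lib.AM.G.Wsum
import Pool.Agent.Lib.AM.G.Bsum
import Pool.Agent.Lib.AM.G.Cprod
import Pool.Agent.Lib.AM.G.Geom

set_option linter.all false

/-! AM, part E: assembly: the geometric part (no hypotheses left). -/

namespace Pool.Agent.AM.G

theorem all_lev : LevProp := levProp noiseProp all_pm gsumProp

theorem all_wsum : WsumProp := wsumProp all_lev

/-- The interface of the geometric part. -/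
theorem all_geom : GeomProp :=
  geomProp parProp all_blk noiseProp all_pm all_wsum bsumProp cprodProp

end Pool.Agent.AM.G
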