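import Pool.Agent.Lib.AM.SpecE

set_option linter.all false

/-!
# AM, SPEC E, module Blk: the block `blk` satisfies `Blk.OK`
-/

namespace Pool.Agent.AM.G

open Finset Pool.Agent.MP_a4c1f4_lc Pool.Agent.AM

private theorem Blk_rrc_pos (c : ℤ) (i : ℕ) : 0 < rrc c i := by
  unfold rrc
  positivity

private theorem Blk_L {P : Prm} {m : ℕ} (hP : P.OK m) : 3 ≤ P.L := by
  have h1 : (1 : ℝ) ≤ (m : ℝ) := by exact_mod_cast hP.m_pos
  have h2 := Real.log_nonneg h1
  rw [hP.hL]
  linarith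

private theorem Blk_Lamm {P : Prm} {m : ℕ} (hP : P.OK m) :
    (m : ℝ) * (P.Lam + 1) * Real.exp (- P.Lam) ≤ 1 / 100 := by
  have hL := Blk_L hP
  have hm : (0 : ℝ) < (m : ℝ) := by exact_mod_cast hP.m_pos
  have h1 : (m : ℝ) = Real.exp (P.L - 3) := by
    rw [hP.hL, add_sub_cancel_right, Real.exp_log hm]
  have h2 : Real.exp P.Lam = (m : ℝ) * (Real.exp P.L * (Real.exp (2 * P.L)) ^ 3 * Real.exp 3) := by
    rw [h1, ← Real.exp_nat_mul, ← Real.exp_add, ← Real.exp_add, ← Real.exp_add, hP.hLam]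
    congr 1
    push_cast
    ring
  have h3 : P.L + 1 ≤ Real.exp P.L := Real.add_one_le_exp _
  have h4 : 7 ≤ Real.exp (2 * P.L) := by
    have := Real.add_one_le_exp (2 * P.L)
    linarith
  have h5 : (4 : ℝ) ≤ Real.exp 3 := by
    have := Real.add_one_le_exp (3 : ℝ)
    linarith
  have h6 : (343 : ℝ) ≤ (Real.exp (2 * P.L)) ^ 3 := by
    calc (343 : ℝ) = 7 ^ 3 := by norm_num
      _ ≤ (Real.exp (2 * P.L)) ^ 3 := pow_le_pow_left₀ (by norm_num) h4 3
  have h7 : (P.L + 1) * 343 * 4 ≤ Real.exp P.L * (Real.exp (2 * P.L)) ^ 3 * Real.exp 3 := by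
    have h8 : (P.L + 1) * 343 ≤ Real.exp P.L * (Real.exp (2 * P.L)) ^ 3 :=
      mul_le_mul h3 h6 (by norm_num) (Real.exp_pos _).le
    exact mul_le_mul h8 h5 (by norm_num) (by positivity)
  have h9 : (P.Lam + 1) * 100 ≤ Real.exp P.L * (Real.exp (2 * P.L)) ^ 3 * Real.exp 3 := by
    rw [hP.hLam]
    linarith
  rw [Real.exp_neg, ← div_eq_mul_inv, div_le_iff₀ (Real.exp_pos _), h2]
  have h10 := mul_le_mul_of_nonneg_left h9 hm.le
  linarith

/-- (OK) The block satisfies `Blk.OK` -/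
theorem blkProp : PmProp → SureProp → RadProp → CountProp → CovProp → NoiseProp → FarProp → BlkProp := by
  intro hPm hSure hRad hCount hCov hNoise hFar X _ _ _ D P N c cl hD hP hN hcl
  have hL := Blk_L hP
  have hLam : 24 ≤ P.Lam := by
    rw [hP.hLam]
    linarith
  have hN0 : 0 < N := by
    have h1 : (0 : ℝ) < (N : ℝ) := lt_of_lt_of_le (by positivity) hN
    exact_mod_cast h1
  have hNo := hNoise P (Fintype.card X) c hP
  exact
    { pmD := hD
      hh := hP.hn
      hLam := hLam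
      hLamm := Blk_Lamm hP
      hN := hN
      pm := fun i _ => (hPm X D P (rrc c i) (mm P c i) hD hP (Blk_rrc_pos c i) (hNo.1 i)).1
      mu := fun i _ => hNo.1 i
      Rpos := mul_pos (lt_of_lt_of_le one_pos hP.hbeta) (Blk_rrc_pos c P.n)
      noise := hNo.2
      nr := fun i _ => mul_pos (by positivity) (Blk_rrc_pos c i)
      vb := fun i _ z => (hCount X D P (rrc c i) hD (Blk_rrc_pos c i)).1 z
      sure := by
        intro i _ g hg x z hO
        have h1 := (hSure X D P (rrc c i) (mm P c i) N hD hP (Blk_rrc_pos c i) (hNo.1 i) hN0 g hg x z hO).1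
        change D x z ≤ rrc c i * P.Lam
        have h2 : 0 < rrc c i * P.Lam := mul_pos (Blk_rrc_pos c i) (by linarith)
        linarith
      srnr := by
        intro i _
        change 8 * (rrc c i * P.Lam) ≤ 4 ^ P.js * rrc c i
        have h1 : (1 : ℝ) ≤ 4 ^ P.s := one_le_pow₀ (by norm_num)
        have h2 : 16 * P.Lam ≤ 4 ^ P.s * (16 * P.Lam) := le_mul_of_one_le_left (by linarith) h1
        have h3 : 8 * P.Lam ≤ 4 ^ P.js := by
          have := hP.hjs
          linarith
        calc 8 * (rrc c i * P.Lam) = (8 * P.Lam) * rrc c i := by ring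
          _ ≤ 4 ^ P.js * rrc c i := mul_le_mul_of_nonneg_right h3 (Blk_rrc_pos c i).le
      count := fun i _ x => (hCount X D P (rrc c i) hD (Blk_rrc_pos c i)).2 x
      far := fun i hi => hFar X D P N c cl hP hcl i hi
      rad := by
        intro i _ g hg hC x z hO
        exact hRad X D P (rrc c i) (mm P c i) N hD hP (Blk_rrc_pos c i) (hNo.1 i) hN0 g hg hC x z hO
      rr := fun i _ => Blk_rrc_pos c i
      Z := fun i _ => hCov X D P (rrc c i) N hD hP (Blk_rrc_pos c i) hN }

end Pool.Agent.AM.G
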