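import Pool.Agent.Lib.AM.SpecE

set_option linter.all false

/-!
# AM, SPEC E, Count: the neighbourhoods are not crowded
-/

namespace Pool.Agent.AM.G

open Finset Pool.Agent.MP_a4c1f4_lc Pool.Agent.AM

section
variable {X : Type} [Fintype X] {D : X → X → ℝ}

private theorem Count_pos (hD : PM D) {r : ℝ} (hr : 0 ≤ r) (x : X) : 1 ≤ nb D r x := by
  classical
  unfold nb
  rw [Nat.one_le_iff_ne_zero, Finset.card_ne_zero]
  exact ⟨x, by simp [hD.self x, hr]⟩

private theorem Count_le (hD : PM D) {r s : ℝ} {x z : X} (h : r + D x z ≤ s) :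
    nb D r x ≤ nb D s z := by
  classical
  unfold nb
  refine Finset.card_le_card fun w hw => ?_
  simp only [Finset.mem_filter, Finset.mem_univ, true_and] at hw ⊢
  have := hD.tri w x z
  linarith

private theorem Count_sum (hD : PM D) {nr : ℝ} (hnr : 0 ≤ nr) (x : X) :
    ∑ z : X, ind (D x z ≤ nr) * Real.exp (-Real.log (nb D (2 * nr) z : ℝ)) ≤ 1 := by
  classical
  have h1 : (1 : ℝ) ≤ (nb D nr x : ℝ) := by exact_mod_cast Count_pos hD hnr x
  have key : ∀ z : X, ind (D x z ≤ nr) * Real.exp (-Real.log (nb D (2 * nr) z : ℝ)) ≤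
      ind (D x z ≤ nr) * (1 / (nb D nr x : ℝ)) := by
    intro z
    by_cases hz : D x z ≤ nr
    · rw [ind_true hz, one_mul, one_mul]
      have h2 : (nb D nr x : ℝ) ≤ (nb D (2 * nr) z : ℝ) := by
        exact_mod_cast Count_le hD (by linarith)
      have h3 : (0 : ℝ) < (nb D (2 * nr) z : ℝ) := by linarith
      rw [Real.exp_neg, Real.exp_log h3, ← one_div]
      exact one_div_le_one_div_of_le (by linarith) h2
    · rw [ind_false hz, zero_mul, zero_mul]
  refine (Finset.sum_le_sum fun z _ => key z).trans ?_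
  rw [← Finset.sum_mul]
  have h4 : ∑ z : X, ind (D x z ≤ nr) = (nb D nr x : ℝ) := by
    unfold nb ind
    rw [Finset.sum_boole]
    congr 2
    ext w
    simp [hD.symm w x]
  rw [h4, mul_one_div, div_self (by linarith)]

end

theorem countProp : CountProp := by
  intro X _ _ _ D P r hD hr
  have hR : (0 : ℝ) ≤ 4 ^ P.js * r := by positivity
  refine ⟨fun z => ?_, fun x => ?_⟩
  · unfold vbk
    have h1 : 1 ≤ nb D (2 * (4 ^ P.js * r)) z := Count_pos hD (by linarith) z
    exact Real.log_nonneg (by exact_mod_cast h1)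
  · unfold vbk
    exact Count_sum hD hR x

end Pool.Agent.AM.G
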