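import Pool.Agent.Lib.AM.SpecE

set_option linter.all false

/-!
# AM, module Cov: the coverage event has probability at least `1/2`
-/

namespace Pool.Agent.AM.G

open Finset Pool.Agent.MP_a4c1f4_lc Pool.Agent.AM

private theorem Cov_lw_nonneg {X : Type} [Fintype X] (Lam : ℝ) (N : ℕ) (h : ∀ j, 0 ≤ tw Lam N j)
    (g : X → Fin N) : 0 ≤ lw Lam g :=
  Finset.prod_nonneg fun z _ => h _

/-- the number of the sites and `L` -/
private theorem Cov_num {m : ℕ} {L : ℝ} (hm : 0 < m) (hL : L = Real.log m + 3) :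
    (1 : ℝ) ≤ m ∧ 0 ≤ Real.log m ∧ 3 ≤ L ∧ (m : ℝ) = Real.exp (L - 3) := by
  have h1 : (1 : ℝ) ≤ m := by exact_mod_cast hm
  have h2 : 0 ≤ Real.log m := Real.log_nonneg h1
  refine ⟨h1, h2, by linarith, ?_⟩
  rw [hL, add_sub_cancel_right, Real.exp_log (by linarith)]

private theorem Cov_end {m : ℕ} {L : ℝ} (h3 : 3 ≤ L) (hm : (m : ℝ) = Real.exp (L - 3)) :
    (m : ℝ) * Real.exp (-(3 * L)) ≤ 1 / 2 ∧ (m : ℝ) * Real.exp (-(8 * L)) ≤ 1 := by
  have e1 : Real.exp (-1 : ℝ) ≤ 1 / 2 := by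
    have h := Real.add_one_le_exp (1 : ℝ)
    rw [Real.exp_neg, ← one_div]
    exact one_div_le_one_div_of_le (by norm_num) (by linarith)
  constructor
  · rw [hm, ← Real.exp_add]
    exact (Real.exp_le_exp.2 (by linarith)).trans e1
  · rw [hm, ← Real.exp_add]
    exact Real.exp_le_one_iff.2 (by linarith)

/-- the failure probability for one site -/
private theorem Cov_pow {n : ℕ} {p q L : ℝ} (hq : q = 1 - p) (hq0 : 0 ≤ q) (hp : 3 * L ≤ n * p) :
    q ^ n ≤ Real.exp (-(3 * L)) := by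
  have h1 : q ≤ Real.exp (-p) := by
    have := Real.add_one_le_exp (-p)
    linarith
  calc q ^ n ≤ Real.exp (-p) ^ n := pow_le_pow_left₀ hq0 h1 n
    _ = Real.exp (-(n * p)) := by
        rw [← Real.exp_nat_mul]
        congr 1
        ring
    _ ≤ Real.exp (-(3 * L)) := Real.exp_le_exp.2 (by linarith)

private theorem Cov_mean {n m : ℕ} {b1 L p Lam t : ℝ} (hn : 1 ≤ n) (hnm : n ≤ m)
    (hb : 4 * L + 4 ≤ Real.exp b1) (ht : t = Real.log n - b1) (hLam : Lam = 8 * L)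
    (hm : (m : ℝ) * Real.exp (-(8 * L)) ≤ 1)
    (hp : 3 / 4 * Real.exp (-t) - Real.exp (-Lam) ≤ p) : 3 * L ≤ n * p := by
  have hn0 : (0 : ℝ) < n := by exact_mod_cast hn
  have h1 : (n : ℝ) * Real.exp (-t) = Real.exp b1 := by
    rw [ht, show -(Real.log n - b1) = b1 - Real.log n by ring, Real.exp_sub, Real.exp_log hn0]
    field_simp
  have h2 : (n : ℝ) * Real.exp (-Lam) ≤ 1 := by
    rw [hLam]
    refine le_trans (mul_le_mul_of_nonneg_right ?_ (Real.exp_pos _).le) hm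
    exact_mod_cast hnm
  have h3 : (n : ℝ) * (3 / 4 * Real.exp (-t) - Real.exp (-Lam)) ≤ n * p :=
    mul_le_mul_of_nonneg_left hp hn0.le
  have h4 : (n : ℝ) * (3 / 4 * Real.exp (-t) - Real.exp (-Lam)) =
      3 / 4 * (n * Real.exp (-t)) - n * Real.exp (-Lam) := by ring
  rw [h4, h1] at h3
  linarith

private theorem Cov_ind_not (Q : Prop) : ind (¬ Q) = 1 - ind Q := by
  by_cases h : Q
  · rw [ind_true h, ind_false (not_not.2 h)]; ring
  · rw [ind_false h, ind_true h]; ring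

theorem covProp : TailProp → IndProp → CovProp := by
  intro hT hI X _ _ _ D P r N hD hP hr hN
  obtain ⟨hm1, hlog, hL3, hmexp⟩ := Cov_num hP.m_pos hP.hL
  obtain ⟨hend1, hend2⟩ := Cov_end hL3 hmexp
  have hLam : 24 ≤ P.Lam := by rw [hP.hLam]; linarith
  obtain ⟨htw0, htw1, htail⟩ := hT P.Lam N hLam hN
  have hN0 : (0 : ℝ) < N := by nlinarith
  have hdl : 0 ≤ P.dl * r := mul_nonneg hP.hdl.le hr.le
  have hlw : ∀ g : X → Fin N, 0 ≤ lw P.Lam g := Cov_lw_nonneg P.Lam N htw0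
  have hsum : ∑ g : X → Fin N, lw P.Lam g = 1 := by
    have h := hI X N (fun j => tw P.Lam N (j : ℕ)) ∅ (fun _ => True) htw1
    rw [Finset.card_empty, pow_zero] at h
    rw [← h]
    refine Finset.sum_congr rfl fun g _ => ?_
    rw [ind_true (by intro z hz; trivial), mul_one]
    rfl
  set t : X → ℝ := fun y => Real.log (nb D (P.dl * r) y) - P.b1 with ht
  set Bs : X → Finset X := fun y => Finset.univ.filter (fun w => D w y ≤ P.dl * r) with hBs
  have hcard : ∀ y, (Bs y).card = nb D (P.dl * r) y := by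
    intro y
    simp only [hBs, nb]
  have hself : ∀ y, y ∈ Bs y := by
    intro y
    simp only [hBs, Finset.mem_filter, Finset.mem_univ, true_and]
    rw [hD.self y]
    exact hdl
  have key : ∀ y, ∑ g : X → Fin N, lw P.Lam g *
      ind (∀ z ∈ Bs y, ¬ (t y ≤ P.Lam * ((g z : ℕ) : ℝ) / (N : ℝ))) ≤ Real.exp (-(3 * P.L)) := by
    intro y
    by_cases h0 : t y ≤ 0
    · have h1 : ∑ g : X → Fin N, lw P.Lam g *
          ind (∀ z ∈ Bs y, ¬ (t y ≤ P.Lam * ((g z : ℕ) : ℝ) / (N : ℝ))) = 0 := by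
        refine Finset.sum_eq_zero fun g _ => ?_
        rw [ind_false, mul_zero]
        intro h
        refine h y (hself y) (h0.trans ?_)
        exact div_nonneg (mul_nonneg (by linarith) (Nat.cast_nonneg _)) hN0.le
      rw [h1]
      exact (Real.exp_pos _).le
    · push Not at h0
      have h1 := hI X N (fun j => tw P.Lam N (j : ℕ)) (Bs y)
        (fun j => ¬ (t y ≤ P.Lam * ((j : ℕ) : ℝ) / (N : ℝ))) htw1
      have h2 : ∑ g : X → Fin N, lw P.Lam g *
          ind (∀ z ∈ Bs y, ¬ (t y ≤ P.Lam * ((g z : ℕ) : ℝ) / (N : ℝ))) =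
          (∑ j : Fin N, tw P.Lam N (j : ℕ) *
            ind (¬ (t y ≤ P.Lam * ((j : ℕ) : ℝ) / (N : ℝ)))) ^ (Bs y).card := by
        rw [← h1]
        rfl
      rw [h2]
      have hn1 : 1 ≤ nb D (P.dl * r) y := by
        rw [← hcard]
        exact Finset.card_pos.2 ⟨y, hself y⟩
      have hnm : nb D (P.dl * r) y ≤ Fintype.card X := by
        rw [← hcard]
        exact Finset.card_le_univ _
      have hty : t y ≤ P.Lam / 8 := by
        have h3 : Real.log (nb D (P.dl * r) y) ≤ Real.log (Fintype.card X : ℝ) :=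
          Real.log_le_log (by exact_mod_cast hn1) (by exact_mod_cast hnm)
        have h4 := hP.hb1
        have h5 := hP.hL
        have h6 := hP.hLam
        simp only [ht]
        linarith
      refine Cov_pow (p := ∑ j : Fin N, tw P.Lam N (j : ℕ) *
        ind (t y ≤ P.Lam * ((j : ℕ) : ℝ) / (N : ℝ))) ?_ ?_ ?_
      · have h3 : ∑ j : Fin N, tw P.Lam N (j : ℕ) *
            ind (¬ (t y ≤ P.Lam * ((j : ℕ) : ℝ) / (N : ℝ))) +
            ∑ j : Fin N, tw P.Lam N (j : ℕ) *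
              ind (t y ≤ P.Lam * ((j : ℕ) : ℝ) / (N : ℝ)) = ∑ j : Fin N, tw P.Lam N (j : ℕ) := by
          rw [← Finset.sum_add_distrib]
          refine Finset.sum_congr rfl fun j _ => ?_
          rw [Cov_ind_not]
          ring
        rw [htw1] at h3
        linarith
      · exact Finset.sum_nonneg fun j _ => mul_nonneg (htw0 _) (ind_nonneg _)
      · rw [hcard]
        exact Cov_mean hn1 hnm hP.hb1' rfl hP.hLam hend2 (htail (t y) h0.le hty)
  have hcov : ∀ g : X → Fin N, 1 - ∑ y, ind (∀ z ∈ Bs y,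
      ¬ (t y ≤ P.Lam * ((g z : ℕ) : ℝ) / (N : ℝ))) ≤
      ind (Cvr P D N r (fun z => (g z : ℕ))) := by
    intro g
    by_cases hC : Cvr P D N r (fun z => (g z : ℕ))
    · rw [ind_true hC]
      have : 0 ≤ ∑ y, ind (∀ z ∈ Bs y, ¬ (t y ≤ P.Lam * ((g z : ℕ) : ℝ) / (N : ℝ))) :=
        Finset.sum_nonneg fun y _ => ind_nonneg _
      linarith
    · rw [ind_false hC]
      have hex : ∃ y, ∀ z ∈ Bs y, ¬ (t y ≤ P.Lam * ((g z : ℕ) : ℝ) / (N : ℝ)) := by
        by_contra hcon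
        push Not at hcon
        apply hC
        intro y
        obtain ⟨z, hz1, hz2⟩ := hcon y
        refine ⟨z, ?_, hz2⟩
        simp only [hBs, Finset.mem_filter, Finset.mem_univ, true_and] at hz1
        rw [hD.symm y z]
        exact hz1
      obtain ⟨y, hy⟩ := hex
      have h1 : ind (∀ z ∈ Bs y, ¬ (t y ≤ P.Lam * ((g z : ℕ) : ℝ) / (N : ℝ))) ≤
          ∑ y, ind (∀ z ∈ Bs y, ¬ (t y ≤ P.Lam * ((g z : ℕ) : ℝ) / (N : ℝ))) :=
        Finset.single_le_sum (f := fun y => ind (∀ z ∈ Bs y,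
          ¬ (t y ≤ P.Lam * ((g z : ℕ) : ℝ) / (N : ℝ)))) (fun y _ => ind_nonneg _)
          (Finset.mem_univ y)
      rw [ind_true hy] at h1
      linarith
  have hfin : ∑ g : X → Fin N, lw P.Lam g * (1 - ∑ y, ind (∀ z ∈ Bs y,
      ¬ (t y ≤ P.Lam * ((g z : ℕ) : ℝ) / (N : ℝ)))) ≤
      ∑ g : X → Fin N, lw P.Lam g * ind (Cvr P D N r (fun z => (g z : ℕ))) :=
    Finset.sum_le_sum fun g _ => mul_le_mul_of_nonneg_left (hcov g) (hlw g)
  have hexp : ∑ g : X → Fin N, lw P.Lam g * (1 - ∑ y, ind (∀ z ∈ Bs y,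
      ¬ (t y ≤ P.Lam * ((g z : ℕ) : ℝ) / (N : ℝ)))) =
      1 - ∑ y, ∑ g : X → Fin N, lw P.Lam g * ind (∀ z ∈ Bs y,
        ¬ (t y ≤ P.Lam * ((g z : ℕ) : ℝ) / (N : ℝ))) := by
    rw [Finset.sum_comm]
    have h1 : ∀ g : X → Fin N, lw P.Lam g * (1 - ∑ y, ind (∀ z ∈ Bs y,
        ¬ (t y ≤ P.Lam * ((g z : ℕ) : ℝ) / (N : ℝ)))) = lw P.Lam g -
        ∑ y, lw P.Lam g * ind (∀ z ∈ Bs y, ¬ (t y ≤ P.Lam * ((g z : ℕ) : ℝ) / (N : ℝ))) := by
      intro g
      rw [mul_sub, mul_one, Finset.mul_sum]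
    rw [Finset.sum_congr rfl fun g _ => h1 g, Finset.sum_sub_distrib, hsum]
  have hys : ∑ y, ∑ g : X → Fin N, lw P.Lam g * ind (∀ z ∈ Bs y,
      ¬ (t y ≤ P.Lam * ((g z : ℕ) : ℝ) / (N : ℝ))) ≤
      ∑ _y : X, Real.exp (-(3 * P.L)) := Finset.sum_le_sum fun y _ => key y
  rw [Finset.sum_const, nsmul_eq_mul, Finset.card_univ] at hys
  rw [hexp] at hfin
  linarith

end Pool.Agent.AM.G
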