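import Pool.Agent.Lib.AM.SpecE

set_option linter.all false

namespace Pool.Agent.AM.G

open Finset Pool.Agent.MP_a4c1f4_lc Pool.Agent.AM

private theorem Far_rrc_pos (c : ℤ) (i : ℕ) : 0 < rrc c i := by
  unfold rrc; positivity

private theorem Far_rrc_add (c : ℤ) (i k : ℕ) : rrc c (i + k) = 4 ^ k * rrc c i := by
  unfold rrc
  have h : c + ((i + k : ℕ) : ℤ) = (k : ℤ) + (c + (i : ℤ)) := by push_cast; ring
  rw [h, zpow_add₀ (by norm_num : (4 : ℝ) ≠ 0), zpow_natCast]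

/-- **Far** -/
theorem farProp : FarNProp → FarProp := by
  intro hN X _ _ _ D P N c cl hP hD i hi
  obtain ⟨hs, hf⟩ := hN P (Fintype.card X) c hP
  have hL : 0 ≤ Real.log (Fintype.card X : ℝ) := Real.log_natCast_nonneg _
  have hLam : 24 ≤ P.Lam := by rw [hP.hLam, hP.hL]; linarith
  have hr := Far_rrc_pos c i
  have h4s : (0 : ℝ) < 4 ^ P.s := by positivity
  by_cases h : i + P.s ≤ P.n
  · right
    refine ⟨?_, h, ?_, ?_, hf i h⟩
    · show 1 ≤ i + P.s
      omega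
    · show i + P.s ≠ i
      omega
    · show 4 * (rrc c (i + P.s) * P.Lam) ≤ 4 ^ P.js * rrc c i
      rw [Far_rrc_add]
      have h1 : 4 * (4 ^ P.s * rrc c i * P.Lam) = (4 ^ P.s * (4 * P.Lam)) * rrc c i := by ring
      rw [h1]
      refine mul_le_mul_of_nonneg_right (le_trans ?_ hP.hjs) hr.le
      exact mul_le_mul_of_nonneg_left (by linarith) h4s.le
  · left
    intro x v hxv
    show D x v ≤ 4 ^ P.js * rrc c i / 2
    refine (hD x v hxv).trans ?_
    obtain ⟨k, hk⟩ := Nat.exists_eq_add_of_le hi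
    rw [hk, Far_rrc_add]
    have hks : k + 1 ≤ P.s := by omega
    have h4k : (4 : ℝ) ^ (k + 1) ≤ 4 ^ P.s := pow_le_pow_right₀ (by norm_num) hks
    rw [pow_succ] at h4k
    have h4k0 : (0 : ℝ) < 4 ^ k := by positivity
    have h2 : (P.Lam + 1) * (4 ^ k * rrc c i) = ((P.Lam + 1) * 4 ^ k) * rrc c i := by ring
    have h3 : 4 ^ P.js * rrc c i / 2 = (4 ^ P.js / 2) * rrc c i := by ring
    rw [h2, h3]
    refine mul_le_mul_of_nonneg_right ?_ hr.le
    have h5 : (P.Lam + 1) * (4 ^ k * 4) ≤ (P.Lam + 1) * 4 ^ P.s :=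
      mul_le_mul_of_nonneg_left h4k (by linarith)
    have h6 : (P.Lam + 1) * 4 ^ P.s ≤ 4 ^ P.s * (16 * P.Lam) := by
      rw [mul_comm]
      exact mul_le_mul_of_nonneg_left (by linarith) h4s.le
    have h7 := hP.hjs
    have h8 : (0 : ℝ) < 4 ^ P.js := by positivity
    nlinarith [h5, h6, h7, h8]

end Pool.Agent.AM.G
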