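import Pool.Agent.Lib.AM.SpecE

set_option linter.all false

/-!
The means of the fields at distance `s`.
-/

namespace Pool.Agent.AM.G

open Finset Pool.Agent.MP_a4c1f4_lc Pool.Agent.AM

private theorem FarN_lam {P : Prm} {m : ℕ} (h : P.OK m) : 24 ≤ P.Lam := by
  have h1 : (1 : ℝ) ≤ (m : ℝ) := by exact_mod_cast h.m_pos
  have h2 := Real.log_nonneg h1
  have h3 := h.hL
  have h4 := h.hLam
  linarith

private theorem FarN_two {P : Prm} {m : ℕ} (h : P.OK m) : 16 * P.Lam ≤ 2 ^ P.s := by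
  have h1 := FarN_lam h
  have h2 : (16 * P.Lam) ^ 2 ≤ ((2 : ℝ) ^ P.s) ^ 2 := by
    have e : ((2 : ℝ) ^ P.s) ^ 2 = 4 ^ P.s := by
      rw [← pow_mul, mul_comm, pow_mul]
      norm_num
    rw [e]
    refine le_trans ?_ h.hs
    have h3 : P.Lam ^ 2 * 1 ≤ P.Lam ^ 2 * P.K :=
      mul_le_mul_of_nonneg_left h.hK (sq_nonneg _)
    nlinarith
  exact (pow_le_pow_iff_left₀ (by positivity) (by positivity) two_ne_zero).1 h2

private theorem FarN_rrc (c : ℤ) (i s : ℕ) : rrc c (i + s) = 4 ^ s * rrc c i := by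
  unfold rrc
  push_cast
  rw [← add_assoc, zpow_add₀ (by norm_num : (4 : ℝ) ≠ 0) (c + i) (s : ℤ), zpow_natCast]
  ring

theorem farNProp : FarNProp := by
  intro P m c h
  have hLam := FarN_lam h
  have h2s := FarN_two h
  have hK := h.hK
  have hb := h.hbeta
  have hb' := h.hbeta'
  have hLp : 0 < P.Lam := by linarith
  have h4s : (4 : ℝ) ^ P.s = 2 ^ P.s * 2 ^ P.s := by
    rw [← mul_pow]
    norm_num
  have hs1 : 1 ≤ P.s := by
    by_contra hc
    have h0 : P.s = 0 := by omega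
    rw [h0, pow_zero] at h2s
    linarith
  refine ⟨hs1, ?_⟩
  intro i hi
  have hr : 0 < rrc c i := by
    unfold rrc
    positivity
  have his : i + P.s ≠ 0 := by omega
  by_cases hi0 : i = 0
  · subst hi0
    unfold mm
    rw [if_pos rfl, if_neg his, FarN_rrc]
    have hx : P.beta / (8 * P.Lam) ≤
        min 1 (P.beta / (8 * P.Lam) * 2 ^ (P.n - (0 + P.s))) := by
      have hq0 : 0 ≤ P.beta / (8 * P.Lam) := by positivity
      refine le_min ?_ ?_
      · rw [div_le_one (by positivity)]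
        exact hb'
      · have h1 : (1 : ℝ) ≤ 2 ^ (P.n - (0 + P.s)) := one_le_pow₀ (by norm_num)
        exact le_mul_of_one_le_right hq0 h1
    have h5 : 16 * P.Lam * (P.K * P.beta) ≤ P.beta / (8 * P.Lam) * 4 ^ P.s := by
      have h6 : P.beta / (8 * P.Lam) * (256 * P.K * P.Lam ^ 2) ≤
          P.beta / (8 * P.Lam) * 4 ^ P.s :=
        mul_le_mul_of_nonneg_left h.hs (by positivity)
      have h7 : P.beta / (8 * P.Lam) * (256 * P.K * P.Lam ^ 2) =
          32 * (P.Lam * (P.K * P.beta)) := by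
        field_simp
        ring
      have h8 : 0 ≤ P.Lam * (P.K * P.beta) := by positivity
      rw [h7] at h6
      linarith
    calc 16 * P.Lam * (P.K * P.beta * rrc c 0)
        = 16 * P.Lam * (P.K * P.beta) * rrc c 0 := by ring
      _ ≤ P.beta / (8 * P.Lam) * 4 ^ P.s * rrc c 0 :=
          mul_le_mul_of_nonneg_right h5 hr.le
      _ = P.beta / (8 * P.Lam) * (4 ^ P.s * rrc c 0) := by ring
      _ ≤ min 1 (P.beta / (8 * P.Lam) * 2 ^ (P.n - (0 + P.s))) * (4 ^ P.s * rrc c 0) :=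
          mul_le_mul_of_nonneg_right hx (by positivity)
  · unfold mm
    rw [if_neg hi0, if_neg his, FarN_rrc]
    have h2pos : (0 : ℝ) < 2 ^ P.s := by positivity
    have h2one : (1 : ℝ) ≤ 2 ^ P.s := one_le_pow₀ (by norm_num)
    have hb1 : min 1 (P.beta / (8 * P.Lam) * 2 ^ (P.n - i)) ≤
        min 1 (P.beta / (8 * P.Lam) * 2 ^ (P.n - (i + P.s))) * 2 ^ P.s := by
      rw [min_mul_of_nonneg _ _ h2pos.le]
      have e : P.beta / (8 * P.Lam) * 2 ^ (P.n - (i + P.s)) * 2 ^ P.s =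
          P.beta / (8 * P.Lam) * 2 ^ (P.n - i) := by
        have e1 : P.n - i = P.n - (i + P.s) + P.s := by omega
        rw [e1, pow_add]
        ring
      rw [e, one_mul]
      exact min_le_min h2one le_rfl
    have hbn : 0 ≤ min 1 (P.beta / (8 * P.Lam) * 2 ^ (P.n - i)) := by
      refine le_min zero_le_one ?_
      positivity
    calc 16 * P.Lam * (min 1 (P.beta / (8 * P.Lam) * 2 ^ (P.n - i)) * rrc c i)
        ≤ 2 ^ P.s * (min 1 (P.beta / (8 * P.Lam) * 2 ^ (P.n - i)) * rrc c i) :=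
          mul_le_mul_of_nonneg_right h2s (mul_nonneg hbn hr.le)
      _ ≤ 2 ^ P.s * (min 1 (P.beta / (8 * P.Lam) * 2 ^ (P.n - (i + P.s))) * 2 ^ P.s *
            rrc c i) :=
          mul_le_mul_of_nonneg_left (mul_le_mul_of_nonneg_right hb1 hr.le) h2pos.le
      _ = min 1 (P.beta / (8 * P.Lam) * 2 ^ (P.n - (i + P.s))) * (4 ^ P.s * rrc c i) := by
          rw [h4s]
          ring

end Pool.Agent.AM.G
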