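import Pool.Agent.Lib.AM.SpecE

set_option linter.all false

/-!
# AM, module G/Gk: bounds of the growth
-/

namespace Pool.Agent.AM.G

open Finset Pool.Agent.MP_a4c1f4_lc Pool.Agent.AM

private theorem Gk_dl {P : Prm} {m : ℕ} (hP : P.OK m) : P.dl ≤ 1 := by
  have h1 : 0 ≤ Real.log m := Real.log_natCast_nonneg m
  have h2 := hP.hL
  have h3 := hP.ha
  have h4 := hP.hb1
  have h5 : 0 ≤ Real.log (1 + P.L + P.a) := Real.log_nonneg (by linarith)
  have h6 := hP.hkap
  have h7 : 4 ≤ P.kap := by linarith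
  have h8 : 1 ≤ P.L + P.a := by linarith
  have h9 : 1 ≤ P.kap * (P.L + P.a) := by nlinarith
  have h10 := hP.hdl
  have h11 := hP.hdl'
  nlinarith

theorem gkProp : GkProp := by
  intro X _ _ _ D P r hD hP hr y
  have hdl := Gk_dl hP
  have hdl0 := hP.hdl
  have h1 : (1 : ℝ) ≤ (nb D (P.dl * r) y : ℝ) := by
    have : 1 ≤ nb D (P.dl * r) y := by
      unfold nb
      rw [Nat.one_le_iff_ne_zero, Finset.card_ne_zero]
      refine ⟨y, Finset.mem_filter.2 ⟨Finset.mem_univ _, ?_⟩⟩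
      rw [hD.self]
      positivity
    exact_mod_cast this
  have h2 : (nb D (P.dl * r) y : ℝ) ≤ (nb D (4 * (4 ^ P.js * r)) y : ℝ) := by
    have : nb D (P.dl * r) y ≤ nb D (4 * (4 ^ P.js * r)) y := by
      unfold nb
      refine Finset.card_le_card fun w hw => ?_
      obtain ⟨hw1, hw2⟩ := Finset.mem_filter.1 hw
      refine Finset.mem_filter.2 ⟨hw1, hw2.trans ?_⟩
      have e1 : (1 : ℝ) ≤ 4 ^ P.js := one_le_pow₀ (by norm_num)
      have e2 : P.dl * r ≤ 1 * r := mul_le_mul_of_nonneg_right hdl hr.le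
      have e3 : 1 * r ≤ 4 ^ P.js * r := mul_le_mul_of_nonneg_right e1 hr.le
      linarith
    exact_mod_cast this
  have h3 : (nb D (4 * (4 ^ P.js * r)) y : ℝ) ≤ (Fintype.card X : ℝ) := by
    have : nb D (4 * (4 ^ P.js * r)) y ≤ Fintype.card X := by
      unfold nb
      exact Finset.card_le_univ _
    exact_mod_cast this
  have h0 : (0 : ℝ) < (nb D (P.dl * r) y : ℝ) := by linarith
  have h4 : 1 ≤ (nb D (4 * (4 ^ P.js * r)) y : ℝ) / (nb D (P.dl * r) y : ℝ) := by
    rw [le_div_iff₀ h0]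
    linarith
  have h5 : (nb D (4 * (4 ^ P.js * r)) y : ℝ) / (nb D (P.dl * r) y : ℝ) ≤ (Fintype.card X : ℝ) := by
    refine (div_le_self (by linarith) h1).trans h3
  have h6 := Real.log_nonneg h4
  have h7 := Real.log_le_log (by linarith) h5
  have h8 := hP.hL
  unfold Gk
  constructor <;> linarith

end Pool.Agent.AM.G
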