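import Pool.Agent.Lib.AM.SpecE

set_option linter.all false

/-! AM, piece Ind: independence. -/

namespace Pool.Agent.AM.G

open Finset Pool.Agent.MP_a4c1f4_lc Pool.Agent.AM

private theorem Ind_prod {X : Type} [Fintype X] [DecidableEq X] (B : Finset X) (Q : X → Prop) :
    ind (∀ z ∈ B, Q z) = ∏ z : X, (if z ∈ B then ind (Q z) else 1) := by
  rw [Finset.prod_ite_mem, Finset.univ_inter]
  by_cases h : ∀ z ∈ B, Q z
  · rw [ind_true h, Finset.prod_eq_one]
    intro z hz
    exact ind_true (h z hz)
  · rw [ind_false h]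
    have h' : ∃ z ∈ B, ¬ Q z := by
      by_contra hcon
      apply h
      intro z hz
      by_contra hA
      exact hcon ⟨z, hz, hA⟩
    obtain ⟨z, hz, hA⟩ := h'
    exact (Finset.prod_eq_zero hz (ind_false hA)).symm

theorem indProp : IndProp := by
  intro X _ _ N w B A hw
  have h1 : ∀ g : X → Fin N, (∏ z, w (g z)) * ind (∀ z ∈ B, A (g z)) =
      ∏ z, (w (g z) * (if z ∈ B then ind (A (g z)) else 1)) := by
    intro g
    rw [Finset.prod_mul_distrib, Ind_prod B (fun z => A (g z))]
  have h2 : ∑ g : X → Fin N, ∏ z, (w (g z) * (if z ∈ B then ind (A (g z)) else 1)) =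
      ∏ z : X, ∑ j : Fin N, (w j * (if z ∈ B then ind (A j) else 1)) := by
    rw [Finset.prod_univ_sum, Fintype.piFinset_univ]
  have h3 : ∀ z : X, ∑ j : Fin N, (w j * (if z ∈ B then ind (A j) else 1)) =
      if z ∈ B then ∑ j, w j * ind (A j) else 1 := by
    intro z
    by_cases hz : z ∈ B
    · simp only [if_pos hz]
    · simp only [if_neg hz, mul_one]
      exact hw
  rw [Finset.sum_congr rfl fun g _ => h1 g, h2, Finset.prod_congr rfl fun z _ => h3 z,
    Finset.prod_ite_mem, Finset.univ_inter, Finset.prod_const]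

end Pool.Agent.AM.G
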