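import Pool.Agent.Lib.AM.SpecE

set_option linter.all false

namespace Pool.Agent.AM.G

open Finset Pool.Agent.MP_a4c1f4_lc Pool.Agent.AM

private theorem Noise_lam {P : Prm} {m : ℕ} (h : P.OK m) : 24 ≤ P.Lam := by
  have h1 : (1 : ℝ) ≤ m := by exact_mod_cast h.m_pos
  have h2 : 0 ≤ Real.log m := Real.log_nonneg h1
  have h3 := h.hL
  have h4 := h.hLam
  linarith

private theorem Noise_rr (c : ℤ) {i n : ℕ} (h : i ≤ n) :
    (2 : ℝ) ^ (n - i) * rrc c i = rrc c n * (1 / 2) ^ (n - i) := by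
  obtain ⟨k, rfl⟩ := Nat.exists_eq_add_of_le h
  have e : i + k - i = k := by omega
  rw [e]
  unfold rrc
  have h4 : (4 : ℝ) ^ (c + ((i + k : ℕ) : ℤ)) = (4 : ℝ) ^ (c + (i : ℤ)) * 4 ^ k := by
    rw [Nat.cast_add, ← add_assoc, zpow_add₀ (by norm_num : (4 : ℝ) ≠ 0), zpow_natCast]
  rw [h4]
  have h5 : (4 : ℝ) ^ k * (1 / 2) ^ k = 2 ^ k := by
    rw [← mul_pow]; norm_num
  calc (2 : ℝ) ^ k * 4 ^ (c + (i : ℤ)) = 4 ^ (c + (i : ℤ)) * 2 ^ k := by ring
    _ = 4 ^ (c + (i : ℤ)) * (4 ^ k * (1 / 2) ^ k) := by rw [h5]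
    _ = 4 ^ (c + (i : ℤ)) * 4 ^ k * (1 / 2) ^ k := by ring

private theorem Noise_geom (n : ℕ) : ∑ i ∈ range n, (1 / 2 : ℝ) ^ (n - (i + 1)) ≤ 2 := by
  have h1 : ∑ i ∈ range n, (1 / 2 : ℝ) ^ (n - (i + 1)) = ∑ i ∈ range n, (1 / 2 : ℝ) ^ i := by
    rw [← Finset.sum_range_reflect (fun i => (1 / 2 : ℝ) ^ i) n]
    apply Finset.sum_congr rfl
    intro i hi
    congr 1
    omega
  rw [h1]
  exact sum_geometric_two_le n

theorem noiseProp : NoiseProp := by
  intro P m c h
  have hL := Noise_lam h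
  have hr : ∀ i, 0 < rrc c i := fun i => by unfold rrc; positivity
  have hb := h.hbeta
  have hK := h.hK
  have hb0 : 0 < P.beta := by linarith
  have hK0 : 0 < P.K := by linarith
  have hL0 : 0 < P.Lam := by linarith
  constructor
  · intro i
    unfold mm
    split_ifs with hi
    · exact mul_pos (mul_pos hK0 hb0) (hr 0)
    · exact mul_pos (lt_min one_pos (by positivity)) (hr i)
  · rw [Finset.sum_range_succ']
    have h0 : mm P c 0 * P.Lam ≤ P.beta * rrc c P.n / 4 := by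
      have e : mm P c 0 = P.K * P.beta * rrc c 0 := by
        unfold mm; rw [if_pos rfl]
      have er : rrc c P.n = rrc c 0 * 4 ^ P.n := by
        unfold rrc
        rw [zpow_add₀ (by norm_num : (4 : ℝ) ≠ 0), zpow_natCast]
        simp
      rw [e, er]
      have h1 : P.beta * rrc c 0 * (4 * P.K * P.Lam) ≤ P.beta * rrc c 0 * 4 ^ P.n :=
        mul_le_mul_of_nonneg_left h.hnn (mul_pos hb0 (hr 0)).le
      linarith
    have h1 : ∑ i ∈ range P.n, mm P c (i + 1) ≤ P.beta / (8 * P.Lam) * rrc c P.n * 2 := by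
      calc ∑ i ∈ range P.n, mm P c (i + 1)
          ≤ ∑ i ∈ range P.n, P.beta / (8 * P.Lam) * rrc c P.n * (1 / 2) ^ (P.n - (i + 1)) := by
            apply Finset.sum_le_sum
            intro i hi
            have hin : i + 1 ≤ P.n := Finset.mem_range.1 hi
            have e : mm P c (i + 1) =
                min 1 (P.beta / (8 * P.Lam) * 2 ^ (P.n - (i + 1))) * rrc c (i + 1) := by
              unfold mm; rw [if_neg (Nat.succ_ne_zero i)]
            rw [e]
            calc min 1 (P.beta / (8 * P.Lam) * 2 ^ (P.n - (i + 1))) * rrc c (i + 1)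
                ≤ P.beta / (8 * P.Lam) * 2 ^ (P.n - (i + 1)) * rrc c (i + 1) :=
                  mul_le_mul_of_nonneg_right (min_le_right _ _) (hr _).le
              _ = P.beta / (8 * P.Lam) * (2 ^ (P.n - (i + 1)) * rrc c (i + 1)) := by ring
              _ = P.beta / (8 * P.Lam) * rrc c P.n * (1 / 2) ^ (P.n - (i + 1)) := by
                  rw [Noise_rr c hin]; ring
        _ = P.beta / (8 * P.Lam) * rrc c P.n * ∑ i ∈ range P.n, (1 / 2 : ℝ) ^ (P.n - (i + 1)) := by
            rw [Finset.mul_sum]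
        _ ≤ P.beta / (8 * P.Lam) * rrc c P.n * 2 :=
            mul_le_mul_of_nonneg_left (Noise_geom _)
              (mul_pos (by positivity) (hr _)).le
    have h2 : (∑ i ∈ range P.n, mm P c (i + 1)) * P.Lam ≤ P.beta * rrc c P.n / 4 := by
      calc (∑ i ∈ range P.n, mm P c (i + 1)) * P.Lam
          ≤ P.beta / (8 * P.Lam) * rrc c P.n * 2 * P.Lam := mul_le_mul_of_nonneg_right h1 hL0.le
        _ = P.beta * rrc c P.n / 4 := by field_simp; ring
    rw [add_mul]
    linarith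

end Pool.Agent.AM.G
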