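import Pool.Agent.Lib.AM.Defs

set_option autoImplicit false
set_option linter.all false

/-! AM: the chain metric (definitions of helper74). -/

namespace Pool.Agent.AM.G

/-- length of the chain `x, l, z` -/
def clen {X : Type} (d : X → X → ℝ) (G : X → ℝ) : X → List X → X → ℝ
  | x, [], z => d x z * max (G x) (G z)
  | x, y :: l, z => d x y * max (G x) (G y) + clen d G y l z

/-- the chain pseudometric -/
noncomputable def chn {X : Type} (d : X → X → ℝ) (G : X → ℝ) (x z : X) : ℝ :=
  sInf (Set.range fun l => clen d G x l z)

end Pool.Agent.AM.G
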