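import Pool.Agent.Lib.MP_a4c1f4_lc.Defs
import Pool.Agent.Lib.AM.G.ChnD

set_option linter.all false

/-!
# AM, part G: the chain metric

`clen d G x l z` is the length of the chain from `x` through the points of `l` to `z`, where the
step from `y` to `y'` costs `d y y' * max (G y) (G y')`; `chn d G x z` is the infimum over all
chains.
-/

namespace Pool.Agent.AM.G

open Pool.Agent.MP_a4c1f4_lc

variable {X : Type} {d : X → X → ℝ} {G : X → ℝ}

theorem clen_append (x : X) (l₁ : List X) (y : X) (l₂ : List X) (z : X) :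
    clen d G x (l₁ ++ y :: l₂) z = clen d G x l₁ y + clen d G y l₂ z := by
  induction l₁ generalizing x with
  | nil => simp [clen]
  | cons w l₁ ih => simp only [List.cons_append, clen, ih]; ring

theorem step_nonneg (hd : PM d) (hG : ∀ y, 0 ≤ G y) (x y : X) :
    0 ≤ d x y * max (G x) (G y) :=
  mul_nonneg (hd.nonneg x y) (le_max_of_le_left (hG x))

theorem clen_nonneg (hd : PM d) (hG : ∀ y, 0 ≤ G y) (x : X) (l : List X) (z : X) :
    0 ≤ clen d G x l z := by
  induction l generalizing x with
  | nil => exact step_nonneg hd hG x z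
  | cons y l ih => exact add_nonneg (step_nonneg hd hG x y) (ih y)

theorem bdd (hd : PM d) (hG : ∀ y, 0 ≤ G y) (x z : X) :
    BddBelow (Set.range fun l => clen d G x l z) :=
  ⟨0, by rintro _ ⟨l, rfl⟩; exact clen_nonneg hd hG x l z⟩

theorem chn_le (hd : PM d) (hG : ∀ y, 0 ≤ G y) (x : X) (l : List X) (z : X) :
    chn d G x z ≤ clen d G x l z :=
  csInf_le (bdd hd hG x z) ⟨l, rfl⟩

theorem chn_nonneg (hd : PM d) (hG : ∀ y, 0 ≤ G y) (x z : X) : 0 ≤ chn d G x z :=
  le_csInf (Set.range_nonempty _) (by rintro _ ⟨l, rfl⟩; exact clen_nonneg hd hG x l z)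

theorem chn_le_one (hd : PM d) (hG : ∀ y, 0 ≤ G y) (x z : X) :
    chn d G x z ≤ d x z * max (G x) (G z) :=
  chn_le hd hG x [] z

/-- Near-optimal chains. -/
theorem exists_chain (x z : X) {ε : ℝ} (hε : 0 < ε) :
    ∃ l, clen d G x l z ≤ chn d G x z + ε := by
  obtain ⟨_, ⟨l, rfl⟩, hl⟩ := Real.lt_sInf_add_pos (s := Set.range fun l => clen d G x l z)
    (Set.range_nonempty _) hε
  exact ⟨l, hl.le⟩

theorem chn_triangle (hd : PM d) (hG : ∀ y, 0 ≤ G y) (x y z : X) :
    chn d G x z ≤ chn d G x y + chn d G y z := by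
  refine le_of_forall_pos_le_add fun ε hε => ?_
  obtain ⟨l₁, h₁⟩ := exists_chain (d := d) (G := G) x y (half_pos hε)
  obtain ⟨l₂, h₂⟩ := exists_chain (d := d) (G := G) y z (half_pos hε)
  have := chn_le hd hG x (l₁ ++ y :: l₂) z
  rw [clen_append] at this
  linarith

/-- A chain read backwards. -/
theorem clen_rev (hd : PM d) (x : X) (l : List X) (z : X) :
    clen d G z l.reverse x = clen d G x l z := by
  induction l generalizing x with
  | nil => simp only [List.reverse_nil, clen]; rw [hd.symm z x, max_comm]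
  | cons y l ih =>
    rw [List.reverse_cons, clen_append, ih]
    simp only [clen]
    rw [hd.symm y x, max_comm (G y) (G x)]
    ring

theorem chn_symm (hd : PM d) (hG : ∀ y, 0 ≤ G y) (x z : X) : chn d G x z = chn d G z x := by
  have key : ∀ x z, chn d G x z ≤ chn d G z x := by
    intro x z
    refine le_of_forall_pos_le_add fun ε hε => ?_
    obtain ⟨l, h⟩ := exists_chain (d := d) (G := G) z x hε
    have h2 := chn_le hd hG x l.reverse z
    rw [clen_rev hd z l x] at h2
    linarith
  exact le_antisymm (key x z) (key z x)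

theorem chn_self (hd : PM d) (hG : ∀ y, 0 ≤ G y) (x : X) : chn d G x x = 0 := by
  refine le_antisymm ?_ (chn_nonneg hd hG x x)
  have := chn_le_one hd hG x x
  rwa [hd.self, zero_mul] at this

/-- The chain metric is a pseudometric. -/
theorem chn_pm (hd : PM d) (hG : ∀ y, 0 ≤ G y) : PM (chn d G) :=
  ⟨fun x => chn_self hd hG x, fun x y => chn_symm hd hG x y,
    fun x y z => chn_triangle hd hG x y z⟩

theorem clen_ge (hd : PM d) {a : ℝ} (ha : 0 ≤ a) (hG : ∀ y, a ≤ G y) (x : X) (l : List X)
    (z : X) : a * d x z ≤ clen d G x l z := by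
  induction l generalizing x with
  | nil =>
    simp only [clen]
    rw [mul_comm]
    exact mul_le_mul_of_nonneg_left (le_max_of_le_left (hG x)) (hd.nonneg x z)
  | cons y l ih =>
    have h1 := hd.tri x y z
    have h2 : d x y * a ≤ d x y * max (G x) (G y) :=
      mul_le_mul_of_nonneg_left (le_max_of_le_left (hG x)) (hd.nonneg x y)
    have h3 := ih y
    simp only [clen]
    nlinarith [mul_le_mul_of_nonneg_left h1 ha]

theorem chn_ge (hd : PM d) {a : ℝ} (ha : 0 ≤ a) (hG : ∀ y, a ≤ G y) (x z : X) :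
    a * d x z ≤ chn d G x z :=
  le_csInf (Set.range_nonempty _) (by rintro _ ⟨l, rfl⟩; exact clen_ge hd ha hG x l z)

theorem chn_zero (hd : PM d) (hG : ∀ y, 0 ≤ G y) {x z : X} (h : d x z = 0) :
    chn d G x z = 0 := by
  refine le_antisymm ?_ (chn_nonneg hd hG x z)
  have := chn_le_one hd hG x z
  rwa [h, zero_mul] at this

end Pool.Agent.AM.G
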