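import Pool.Agent.Lib.AM.SpecE
import Pool.Agent.Lib.AM.G.Chn

set_option linter.all false

/-!
# AM, SPEC E, statement (Pm): `dpl` is a pseudometric, with the upper bounds
-/

namespace Pool.Agent.AM.G

open Finset Pool.Agent.MP_a4c1f4_lc Pool.Agent.AM

private theorem Pm_kap {P : Prm} {m : ℕ} (hP : P.OK m) : 0 ≤ P.kap ∧ 1 ≤ P.a := by
  have hm : (1 : ℝ) ≤ (m : ℝ) := by exact_mod_cast hP.m_pos
  have hL : 0 ≤ P.L := by
    rw [hP.hL]
    have := Real.log_nonneg hm
    linarith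
  have ha : 1 ≤ P.a := by
    rw [hP.ha]
    have := hP.hb1
    linarith
  have hlog : 0 ≤ Real.log (1 + P.L + P.a) := Real.log_nonneg (by linarith)
  exact ⟨by linarith [hP.hkap], ha⟩

theorem pmProp : DkProp → GkProp → PmProp := by
  intro hDk hGk X _ _ _ D P r mu hD hP hr hmu
  obtain ⟨hpm, hle, -, hz⟩ := hDk X D r hD hr
  obtain ⟨hk, ha⟩ := Pm_kap hP
  have hG : ∀ y, 0 ≤ Gk P D r y := fun y => by
    have := (hGk X D P r hD hP hr y).1
    linarith
  have hK : 0 ≤ P.kap * (mu / r) := mul_nonneg hk (div_nonneg hmu.le hr.le)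
  have hc := chn_pm hpm hG
  refine ⟨⟨fun x => ?_, fun x y => ?_, fun x y z => ?_⟩, fun x y => ?_, fun x y h => ?_⟩
  · unfold dpl
    rw [hc.self, mul_zero]
  · unfold dpl
    rw [hc.symm]
  · unfold dpl
    rw [← mul_add]
    exact mul_le_mul_of_nonneg_left (hc.tri x y z) hK
  · unfold dpl
    have h1 := chn_le_one hpm hG x y
    have h2 : max (Gk P D r x) (Gk P D r y) ≤ Gk P D r x + Gk P D r y :=
      max_le (by linarith [hG y]) (by linarith [hG x])
    have h3 : Dk D r x y * max (Gk P D r x) (Gk P D r y) ≤ D x y * (Gk P D r x + Gk P D r y) :=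
      mul_le_mul (hle x y) h2 (le_max_of_le_left (hG x)) (hD.nonneg x y)
    calc P.kap * (mu / r) * chn (Dk D r) (Gk P D r) x y
        ≤ P.kap * (mu / r) * (D x y * (Gk P D r x + Gk P D r y)) :=
          mul_le_mul_of_nonneg_left (h1.trans h3) hK
      _ = P.kap * (mu / r) * D x y * (Gk P D r x + Gk P D r y) := by ring
  · unfold dpl
    rw [chn_zero hpm hG (hz x y h), mul_zero]

end Pool.Agent.AM.G
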