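import Pool.Agent.Lib.AM.G.Chn

set_option linter.all false

/-!
# AM, part G: the radius lemma

`x` belongs to the cell of `z` for the noise `E` and the chain metric `c * chn d G`. If near every
point `y` of the relevant region there is a source `z'` at distance at most `mu` with
`E z / mu - E z' / mu + 2 ≤ G y + e`, then `c / mu * d x z ≤ e + 1 + ln (G x)`.
-/

namespace Pool.Agent.AM.G

open Pool.Agent.MP_a4c1f4_lc

/-- The primitive of `1 / max (1, X - e)`. -/
noncomputable def Phi (e X : ℝ) : ℝ := if X ≤ e + 1 then X else e + 1 + Real.log (X - e)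

theorem phi_step {e X X' t M : ℝ} (he : 0 ≤ e) (h0 : 0 ≤ X') (ht : 0 ≤ t) (hM : 1 ≤ M)
    (hX : X = X' + t * M) (hXM : X ≤ M + e) : t ≤ Phi e X - Phi e X' := by
  unfold Phi
  have hXX : X' ≤ X := by nlinarith
  by_cases h1 : X ≤ e + 1
  · rw [if_pos h1, if_pos (hXX.trans h1)]
    nlinarith
  · rw [if_neg h1]
    push Not at h1
    have hb : 1 < X - e := by linarith
    have hb0 : 0 < X - e := by linarith
    have hMb : X - e ≤ M := by linarith
    by_cases h2 : X' ≤ e + 1
    · rw [if_pos h2]
      have hlog : 1 - 1 / (X - e) ≤ Real.log (X - e) := by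
        have := Real.one_sub_inv_le_log_of_pos hb0
        rwa [one_div]
      have hu : 0 ≤ e + 1 - X' := by linarith
      have h3 : t * (X - e) ≤ X - X' := by nlinarith
      have h4 : t ≤ (X - X') / (X - e) := by rwa [le_div_iff₀ hb0]
      have h5 : (X - X') / (X - e) = 1 - 1 / (X - e) + (e + 1 - X') / (X - e) := by
        field_simp
        ring
      have h6 : (e + 1 - X') / (X - e) ≤ e + 1 - X' := div_le_self hu hb.le
      linarith
    · rw [if_neg h2]
      push Not at h2
      have hb0' : 0 < X' - e := by linarith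
      have h3 : t * (X - e) ≤ X - X' := by nlinarith
      have h4 : t ≤ (X - X') / (X - e) := by rwa [le_div_iff₀ hb0]
      have h5 := Real.one_sub_inv_le_log_of_pos (x := (X - e) / (X' - e)) (by positivity)
      rw [Real.log_div hb0.ne' hb0'.ne', inv_div] at h5
      have h6 : (X - X') / (X - e) = 1 - (X' - e) / (X - e) := by
        field_simp
        ring
      linarith

variable {X : Type} {d : X → X → ℝ} {G : X → ℝ}

theorem chain_bound (hd : PM d) (hG : ∀ y, 1 ≤ G y) {c mu : ℝ} (hc : 0 < c) (hmu : 0 < mu)
    (E : X → ℝ) (x z : X)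
    (hz : ∀ z', E z' - c * chn d G x z' ≤ E z - c * chn d G x z) {e : ℝ} (he : 0 ≤ e)
    (hcov : ∀ y, c * chn d G y z ≤ c * chn d G x z + mu →
      ∃ z', c * chn d G y z' ≤ mu ∧ E z / mu - E z' / mu + 2 ≤ G y + e)
    (l : List X) : ∀ y, c * clen d G y l z ≤ c * chn d G x z + mu - c * chn d G x y →
      c / mu * clen d G y l z ≤ G y + e ∧ c / mu * d y z ≤ Phi e (c / mu * clen d G y l z) := by
  have hG0 : ∀ y, 0 ≤ G y := fun y => by linarith [hG y]
  have hp := chn_pm (d := d) (G := G) hd hG0
  have hcm : 0 < c / mu := by positivity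
  have first : ∀ (l : List X) y, c * clen d G y l z ≤ c * chn d G x z + mu - c * chn d G x y →
      c / mu * clen d G y l z ≤ G y + e := by
    intro l y h
    have h1 : c * chn d G y z ≤ c * clen d G y l z :=
      mul_le_mul_of_nonneg_left (chn_le hd hG0 y l z) hc.le
    have h2 : 0 ≤ c * chn d G x y := mul_nonneg hc.le (chn_nonneg hd hG0 x y)
    obtain ⟨z', h3, h4⟩ := hcov y (by linarith)
    have h5 := hz z'
    have h6 : c * chn d G x z' ≤ c * chn d G x y + c * chn d G y z' := by
      rw [← mul_add]
      exact mul_le_mul_of_nonneg_left (hp.tri x y z') hc.le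
    have h7 : c * clen d G y l z ≤ E z - E z' + 2 * mu := by linarith
    have h8 : c / mu * clen d G y l z = c * clen d G y l z / mu := by ring
    have h9 : c * clen d G y l z / mu ≤ (E z - E z' + 2 * mu) / mu :=
      div_le_div_of_nonneg_right h7 hmu.le
    have h10 : (E z - E z' + 2 * mu) / mu = E z / mu - E z' / mu + 2 := by
      field_simp
    rw [h8]
    linarith
  induction l with
  | nil =>
    intro y h
    refine ⟨first [] y h, ?_⟩
    have h1 := first [] y h
    have h2 := phi_step (e := e) (X := c / mu * clen d G y [] z) (X' := 0) (t := c / mu * d y z)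
      (M := max (G y) (G z)) he le_rfl (mul_nonneg hcm.le (hd.nonneg y z))
      (le_max_of_le_left (hG y)) (by simp only [clen]; ring)
      (h1.trans (by linarith [le_max_left (G y) (G z)]))
    have h3 : Phi e 0 = 0 := by
      unfold Phi
      rw [if_pos (by linarith)]
    linarith
  | cons w l ih =>
    intro y h
    refine ⟨first (w :: l) y h, ?_⟩
    have h1 := first (w :: l) y h
    have h2 : c * clen d G w l z ≤ c * chn d G x z + mu - c * chn d G x w := by
      have h3 : c * clen d G y (w :: l) z =
          c * (d y w * max (G y) (G w)) + c * clen d G w l z := by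
        simp only [clen]; ring
      have h4 : c * chn d G x w ≤ c * chn d G x y + c * (d y w * max (G y) (G w)) := by
        rw [← mul_add]
        exact mul_le_mul_of_nonneg_left ((hp.tri x y w).trans
          (by linarith [chn_le_one (d := d) (G := G) hd hG0 y w])) hc.le
      linarith
    obtain ⟨-, h5⟩ := ih w h2
    have h6 := phi_step (e := e) (X := c / mu * clen d G y (w :: l) z)
      (X' := c / mu * clen d G w l z) (t := c / mu * d y w)
      (M := max (G y) (G w)) he (mul_nonneg hcm.le (clen_nonneg hd hG0 w l z))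
      (mul_nonneg hcm.le (hd.nonneg y w))
      (le_max_of_le_left (hG y)) (by simp only [clen]; ring)
      (h1.trans (by linarith [le_max_left (G y) (G w)]))
    have h7 : c / mu * d y z ≤ c / mu * d y w + c / mu * d w z := by
      rw [← mul_add]
      exact mul_le_mul_of_nonneg_left (hd.tri y w z) hcm.le
    linarith

/-- The radius lemma. -/
theorem rad (hd : PM d) (hG : ∀ y, 1 ≤ G y) {c mu : ℝ} (hc : 0 < c) (hmu : 0 < mu)
    (E : X → ℝ) (x z : X)
    (hz : ∀ z', E z' - c * chn d G x z' ≤ E z - c * chn d G x z) {e : ℝ} (he : 0 ≤ e)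
    (hcov : ∀ y, c * chn d G y z ≤ c * chn d G x z + mu →
      ∃ z', c * chn d G y z' ≤ mu ∧ E z / mu - E z' / mu + 2 ≤ G y + e) :
    c / mu * d x z ≤ e + 1 + Real.log (G x) := by
  have hG0 : ∀ y, 0 ≤ G y := fun y => by linarith [hG y]
  obtain ⟨l, hl⟩ := exists_chain (d := d) (G := G) x z (ε := mu / c) (by positivity)
  have h1 : c * clen d G x l z ≤ c * chn d G x z + mu - c * chn d G x x := by
    rw [chn_self hd hG0 x, mul_zero, sub_zero]
    have := mul_le_mul_of_nonneg_left hl hc.le
    have h2 : c * (chn d G x z + mu / c) = c * chn d G x z + mu := by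
      field_simp
    linarith
  obtain ⟨h2, h3⟩ := chain_bound hd hG hc hmu E x z hz he hcov l x h1
  have hlog : 0 ≤ Real.log (G x) := Real.log_nonneg (hG x)
  refine h3.trans ?_
  unfold Phi
  split_ifs with h4
  · linarith
  · push Not at h4
    have : Real.log (c / mu * clen d G x l z - e) ≤ Real.log (G x) :=
      Real.log_le_log (by linarith) (by linarith)
    linarith

end Pool.Agent.AM.G
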