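import Pool.Agent.Lib.AM.SpecE
import Pool.Agent.Lib.AM.G.Rad

set_option linter.all false

/-!
# AM, part G: the radius of the cells on the coverage event
-/

namespace Pool.Agent.AM.G

open Finset Pool.Agent.MP_a4c1f4_lc Pool.Agent.AM

private theorem RadM_own {X : Type} [Fintype X] {dp : X → X → ℝ} {eta : ℝ} {g : X → ℕ} {x z : X}
    (h : Own dp eta g x z) (z' : X) :
    eta * (g z' : ℝ) - dp x z' ≤ eta * (g z : ℝ) - dp x z := by
  obtain ⟨w, hw, h1⟩ := h
  have hwz : w = z := hw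
  subst hwz
  rcases h1 z' with h2 | ⟨h2, -⟩
  · simp only [id, one_mul] at h2
    exact h2.le
  · simp only [id, one_mul] at h2
    exact h2.le

private theorem RadM_nb_pos {X : Type} [Fintype X] {D : X → X → ℝ} (hD : PM D) {R : ℝ}
    (hR : 0 ≤ R) (y : X) : (0 : ℝ) < (nb D R y : ℝ) := by
  have h : 0 < nb D R y := by
    classical
    unfold nb
    refine Finset.card_pos.2 ⟨y, ?_⟩
    simp only [Finset.mem_filter, Finset.mem_univ, true_and]
    rw [hD.self]
    exact hR
  exact_mod_cast h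

private theorem RadM_nb_mono {X : Type} [Fintype X] {D : X → X → ℝ} {R R' : ℝ} {y z : X}
    (h : ∀ w, D w z ≤ R → D w y ≤ R') : (nb D R z : ℝ) ≤ (nb D R' y : ℝ) := by
  have h1 : nb D R z ≤ nb D R' y := by
    classical
    unfold nb
    refine Finset.card_le_card fun w hw => ?_
    simp only [Finset.mem_filter, Finset.mem_univ, true_and] at hw ⊢
    exact h w hw
  exact_mod_cast h1

theorem radProp (hDk : DkProp) (hGk : GkProp) (hSure : SureProp) : RadProp := by
  intro X _ _ _ D P r mu N hD hP hr hmu hN g hg hCov x z hown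
  obtain ⟨hk1, hk2, hk3, -⟩ := hDk X D r hD hr
  have hG := hGk X D P r hD hP hr
  obtain ⟨-, hs2⟩ := hSure X D P r mu N hD hP hr hmu hN g hg x z hown
  have hNr : (0 : ℝ) < N := by exact_mod_cast hN
  have hm1 : (1 : ℝ) ≤ (Fintype.card X : ℝ) := by exact_mod_cast hP.m_pos
  have hL3 : 3 ≤ P.L := by
    rw [hP.hL]
    linarith [Real.log_nonneg hm1]
  have hLam : 24 ≤ P.Lam := by
    rw [hP.hLam]
    linarith
  have ha5 : 5 ≤ P.a := by
    rw [hP.ha]
    linarith [hP.hb1]
  obtain ⟨ell, hell⟩ : ∃ ell : ℝ, ell = Real.log (1 + P.L + P.a) := ⟨_, rfl⟩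
  have hell0 : 0 ≤ ell := by
    rw [hell]
    exact Real.log_nonneg (by linarith)
  have hkap : 4 * (1 + ell) ≤ P.kap := by
    rw [hell]
    exact hP.hkap
  have hkap4 : 4 ≤ P.kap := by linarith
  have hkap0 : 0 < P.kap := by linarith
  have hG1 : ∀ y, 1 ≤ Gk P D r y := fun y => by linarith [(hG y).1]
  have hG0 : ∀ y, 0 ≤ Gk P D r y := fun y => by linarith [hG1 y]
  have hc : 0 < P.kap * (mu / r) := mul_pos hkap0 (div_pos hmu hr)
  obtain ⟨R, hR⟩ : ∃ R : ℝ, R = 4 ^ P.js * r := ⟨_, rfl⟩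
  have hR16 : 16 * P.Lam * r ≤ R := by
    have h1 : (1 : ℝ) ≤ 4 ^ P.s := one_le_pow₀ (by norm_num)
    have h2 : 16 * P.Lam ≤ 4 ^ P.js := by
      refine le_trans ?_ hP.hjs
      have h3 : 0 ≤ 16 * P.Lam := by linarith
      nlinarith
    rw [hR]
    exact mul_le_mul_of_nonneg_right h2 hr.le
  have hR0 : 0 ≤ R := le_trans (by positivity) hR16
  obtain ⟨e, he⟩ : ∃ e : ℝ, e = max 0 (P.Lam * (g z : ℝ) / (N : ℝ) - vbk P D r z - 2) := ⟨_, rfl⟩
  have he0 : 0 ≤ e := by
    rw [he]
    exact le_max_left _ _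
  have he1 : P.Lam * (g z : ℝ) / (N : ℝ) - vbk P D r z - 2 ≤ e := by
    rw [he]
    exact le_max_right _ _
  rw [← he]
  have hEmu : ∀ w : X, mu * P.Lam / (N : ℝ) * (g w : ℝ) / mu = P.Lam * (g w : ℝ) / (N : ℝ) := by
    intro w
    field_simp
  have hz : ∀ z', mu * P.Lam / (N : ℝ) * (g z' : ℝ) -
      P.kap * (mu / r) * chn (Dk D r) (Gk P D r) x z' ≤ mu * P.Lam / (N : ℝ) * (g z : ℝ) -
      P.kap * (mu / r) * chn (Dk D r) (Gk P D r) x z := fun z' => RadM_own hown z'
  have hs2' : P.kap * (mu / r) * chn (Dk D r) (Gk P D r) x z ≤ mu * P.Lam := hs2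
  have hcov : ∀ y, P.kap * (mu / r) * chn (Dk D r) (Gk P D r) y z ≤
      P.kap * (mu / r) * chn (Dk D r) (Gk P D r) x z + mu →
      ∃ z', P.kap * (mu / r) * chn (Dk D r) (Gk P D r) y z' ≤ mu ∧
        mu * P.Lam / (N : ℝ) * (g z : ℝ) / mu - mu * P.Lam / (N : ℝ) * (g z' : ℝ) / mu + 2 ≤
          Gk P D r y + e := by
    intro y hy
    -- `y` is not far from `z`
    have h1 : Dk D r y z ≤ chn (Dk D r) (Gk P D r) y z := by
      have h := chn_ge hk1 (a := 1) zero_le_one hG1 y z
      rwa [one_mul] at h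
    have h2 : P.kap * (mu / r) * Dk D r y z ≤ mu * (P.Lam + 1) := by
      have h3 := mul_le_mul_of_nonneg_left h1 hc.le
      linarith
    have h3 : P.kap * Dk D r y z ≤ r * (P.Lam + 1) := by
      have h4 : P.kap * (mu / r) * Dk D r y z = mu * (P.kap * Dk D r y z / r) := by
        ring
      rw [h4] at h2
      have h5 := le_of_mul_le_mul_left h2 hmu
      rw [div_le_iff₀ hr] at h5
      linarith
    have h4 : 4 * Dk D r y z ≤ r * (P.Lam + 1) := by
      refine le_trans ?_ h3
      exact mul_le_mul_of_nonneg_right hkap4 (hk1.nonneg y z)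
    have h5 : D y z ≤ R := by
      have h6 := hk3 y z
      nlinarith
    obtain ⟨z', h7, h8⟩ := hCov y
    refine ⟨z', ?_, ?_⟩
    · have h9 := chn_le_one (d := Dk D r) (G := Gk P D r) hk1 hG0 y z'
      have h10 : Dk D r y z' * max (Gk P D r y) (Gk P D r z') ≤ P.dl * r * (P.L + P.a) := by
        refine mul_le_mul ((hk2 y z').trans h7) (max_le (hG y).2 (hG z').2)
          (le_max_of_le_left (hG0 y)) (mul_nonneg hP.hdl.le hr.le)
      have h11 := mul_le_mul_of_nonneg_left (h9.trans h10) hc.le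
      refine h11.trans ?_
      have h12 : P.kap * (mu / r) * (P.dl * r * (P.L + P.a)) =
          mu * (P.kap * (P.L + P.a) * P.dl) := by
        field_simp
      rw [h12]
      have h13 := mul_le_mul_of_nonneg_left hP.hdl' hmu.le
      linarith
    · rw [hEmu, hEmu]
      have hp1 : (0 : ℝ) < (nb D (P.dl * r) y : ℝ) :=
        RadM_nb_pos hD (mul_nonneg hP.hdl.le hr.le) y
      have hp2 : (0 : ℝ) < (nb D (4 * (4 ^ P.js * r)) y : ℝ) := by
        rw [← hR]
        exact RadM_nb_pos hD (by linarith) y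
      have hp3 : (0 : ℝ) < (nb D (2 * (4 ^ P.js * r)) z : ℝ) := by
        rw [← hR]
        exact RadM_nb_pos hD (by linarith) z
      have h14 : vbk P D r z ≤ Real.log (nb D (4 * (4 ^ P.js * r)) y) := by
        unfold vbk
        refine Real.log_le_log hp3 (RadM_nb_mono fun w hw => ?_)
        rw [← hR] at hw ⊢
        have h15 := hD.tri w z y
        rw [hD.symm z y] at h15
        linarith
      have h16 : Gk P D r y = Real.log (nb D (4 * (4 ^ P.js * r)) y) -
          Real.log (nb D (P.dl * r) y) + P.a := by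
        unfold Gk
        rw [Real.log_div hp2.ne' hp1.ne']
      rw [h16, hP.ha]
      linarith
  have key := rad hk1 hG1 hc hmu (fun w => mu * P.Lam / (N : ℝ) * (g w : ℝ)) x z hz he0 hcov
  have hlog : Real.log (Gk P D r x) ≤ ell := by
    rw [hell]
    refine Real.log_le_log (by linarith [hG1 x]) ?_
    linarith [(hG x).2]
  have h1 : P.kap * (mu / r) / mu * Dk D r x z = P.kap * Dk D r x z / r := by
    field_simp
  rw [h1] at key
  have h2 : P.kap * Dk D r x z / r ≤ (1 + e) * (1 + ell) := by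
    refine key.trans ?_
    nlinarith [mul_nonneg he0 hell0]
  rw [div_le_iff₀ hr] at h2
  have h3 : 4 * (1 + ell) * Dk D r x z ≤ (1 + e) * (1 + ell) * r :=
    le_trans (mul_le_mul_of_nonneg_right hkap (hk1.nonneg x z)) h2
  have h4 : 4 * Dk D r x z ≤ (1 + e) * r := by
    have h5 : (1 + ell) * (4 * Dk D r x z) ≤ (1 + ell) * ((1 + e) * r) := by linarith
    exact le_of_mul_le_mul_left h5 (by linarith)
  have h6 := hk3 x z
  nlinarith [mul_nonneg he0 hr.le]

end Pool.Agent.AM.G
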