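import Pool.Agent.Lib.AM.SpecE
import Pool.Agent.Lib.AM.G.Chn

set_option linter.all false

/-!
# AM, part G: the sure radius of the cells
-/

namespace Pool.Agent.AM.G

open Finset Pool.Agent.MP_a4c1f4_lc Pool.Agent.AM

private theorem Sure_num (P : Prm) (m : ℕ) (h : P.OK m) : 4 ≤ P.kap ∧ 24 ≤ P.Lam ∧ 5 ≤ P.a := by
  have hm : (1 : ℝ) ≤ (m : ℝ) := by exact_mod_cast h.m_pos
  have hlog : 0 ≤ Real.log (m : ℝ) := Real.log_nonneg hm
  have hL := h.hL
  have hLam := h.hLam
  have ha := h.ha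
  have hb := h.hb1
  have hk := h.hkap
  have hlog2 : 0 ≤ Real.log (1 + P.L + P.a) := Real.log_nonneg (by linarith)
  refine ⟨by linarith, by linarith, by linarith⟩

theorem sureProp : DkProp → GkProp → SureProp := by
  intro hDk hGk X _ _ _ D P r mu N hD hP hr hmu hN g hg x z hown
  obtain ⟨hkap, hLam, ha⟩ := Sure_num P _ hP
  obtain ⟨hpm, _, hD8, _⟩ := hDk X D r hD hr
  have hG : ∀ y, 1 ≤ Gk P D r y := fun y => by
    have := (hGk X D P r hD hP hr y).1
    linarith
  have hG0 : ∀ y, 0 ≤ Gk P D r y := fun y => zero_le_one.trans (hG y)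
  have hN' : (0 : ℝ) < (N : ℝ) := by exact_mod_cast hN
  have heta : 0 ≤ mu * P.Lam / N := by positivity
  have hgz : (g z : ℝ) ≤ (N : ℝ) := by exact_mod_cast hg z
  have hself : dpl P D r mu x x = 0 := by
    unfold dpl
    rw [chn_self hpm hG0 x, mul_zero]
  -- comparison with the candidate `x`
  have h1 : mu * P.Lam / N * (g x : ℝ) - 1 * dpl P D r mu x x ≤
      mu * P.Lam / N * (g z : ℝ) - 1 * dpl P D r mu x z := by
    obtain ⟨x0, hx0, h⟩ := hown
    have hx0' : x0 = z := hx0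
    subst hx0'
    rcases h x with h' | h'
    · exact h'.le
    · exact h'.1.le
  have h2 : dpl P D r mu x z ≤ mu * P.Lam := by
    have h3 : 0 ≤ mu * P.Lam / N * (g x : ℝ) := mul_nonneg heta (Nat.cast_nonneg _)
    have h4 : mu * P.Lam / N * (g z : ℝ) ≤ mu * P.Lam / N * (N : ℝ) :=
      mul_le_mul_of_nonneg_left hgz heta
    have h5 : mu * P.Lam / N * (N : ℝ) = mu * P.Lam := div_mul_cancel₀ _ hN'.ne'
    rw [hself] at h1
    linarith
  refine ⟨?_, h2⟩
  have h3 : 1 * Dk D r x z ≤ chn (Dk D r) (Gk P D r) x z := chn_ge hpm zero_le_one hG x z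
  have h4 : 0 ≤ Dk D r x z := hpm.nonneg x z
  have h5 : P.kap * (mu / r) * Dk D r x z ≤ mu * P.Lam := by
    refine le_trans ?_ h2
    unfold dpl
    refine mul_le_mul_of_nonneg_left (by linarith) ?_
    have : 0 ≤ P.kap := by linarith
    positivity
  have h6 : P.kap * Dk D r x z ≤ P.Lam * r := by
    have h7 : P.kap * (mu / r) * Dk D r x z = mu * (P.kap * Dk D r x z / r) := by
      field_simp
    rw [h7] at h5
    have h8 : P.kap * Dk D r x z / r ≤ P.Lam := le_of_mul_le_mul_left h5 hmu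
    rwa [div_le_iff₀ hr] at h8
  have h7 : 4 * Dk D r x z ≤ P.Lam * r :=
    (mul_le_mul_of_nonneg_right hkap h4).trans h6
  have h8 := hD8 x z
  have h9 : 24 * r ≤ P.Lam * r := mul_le_mul_of_nonneg_right hLam hr.le
  nlinarith [h7, h8, h9, hr]

end Pool.Agent.AM.G
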