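import Pool.Agent.Lib.AM.SpecE

set_option linter.all false

/-!
# AM, part G, module Tail: the truncated geometric weights
-/

namespace Pool.Agent.AM.G

open Finset Pool.Agent.MP_a4c1f4_lc Pool.Agent.AM

private theorem Tail_geom (q : ℝ) (n : ℕ) : ∑ j ∈ range n, (1 - q) * q ^ j = 1 - q ^ n := by
  rw [← Finset.mul_sum, mul_neg_geom_sum]

private theorem Tail_Ico (q : ℝ) (m n : ℕ) (h : m ≤ n) : ∑ j ∈ Ico m n, (1 - q) * q ^ j = q ^ m - q ^ n := by
  rw [Finset.sum_Ico_eq_sub _ h, Tail_geom, Tail_geom]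
  ring

/-- lower bound of a power of `1 - x` -/
private theorem Tail_low (x t : ℝ) (j : ℕ) (hx0 : 0 < x) (hx : x ≤ 1 / 24) (ht : 0 ≤ t) (htx : t * x ≤ 1 / 8)
    (hj : (j : ℝ) * x ≤ t + x) : 3 / 4 * Real.exp (-t) ≤ (1 - x) ^ j := by
  have hq : 0 < 1 - x := by linarith
  obtain ⟨u, hu⟩ : ∃ u, u = x / (1 - x) := ⟨_, rfl⟩
  have hu1 : (1 - x) * (u + 1) = 1 := by
    rw [hu]
    field_simp
    ring
  have hlow : Real.exp (-u) ≤ 1 - x := by
    have h1 : 1 ≤ (1 - x) * Real.exp u := by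
      calc (1 : ℝ) = (1 - x) * (u + 1) := hu1.symm
        _ ≤ (1 - x) * Real.exp u := mul_le_mul_of_nonneg_left (Real.add_one_le_exp u) hq.le
    calc Real.exp (-u) = Real.exp (-u) * 1 := (mul_one _).symm
      _ ≤ Real.exp (-u) * ((1 - x) * Real.exp u) := mul_le_mul_of_nonneg_left h1 (Real.exp_pos _).le
      _ = (1 - x) * (Real.exp (-u) * Real.exp u) := by ring
      _ = 1 - x := by rw [← Real.exp_add, neg_add_cancel, Real.exp_zero, mul_one]
  have hju : (j : ℝ) * u ≤ t + 4 / 23 := by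
    have e : (j : ℝ) * u = (j : ℝ) * x / (1 - x) := by
      rw [hu]
      ring
    rw [e, div_le_iff₀ hq]
    nlinarith
  have h2 : Real.exp (-u) ^ j ≤ (1 - x) ^ j := pow_le_pow_left₀ (Real.exp_pos _).le hlow j
  have h3 : Real.exp (-(t + 4 / 23)) ≤ Real.exp (-u) ^ j := by
    rw [← Real.exp_nat_mul]
    apply Real.exp_le_exp.2
    linarith
  have h4 : 3 / 4 * Real.exp (-t) ≤ Real.exp (-(t + 4 / 23)) := by
    rw [neg_add, Real.exp_add, mul_comm]
    refine mul_le_mul_of_nonneg_left ?_ (Real.exp_pos _).le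
    have := Real.add_one_le_exp (-(4 / 23 : ℝ))
    linarith
  linarith

theorem tailProp : TailProp := by
  intro Lam N hLam hN
  have hNpos : (0 : ℝ) < N := by nlinarith
  have hNne : N ≠ 0 := by
    rintro rfl
    simp at hNpos
  obtain ⟨x, hx⟩ : ∃ x, x = Lam / (N : ℝ) := ⟨_, rfl⟩
  have hx0 : 0 < x := by
    rw [hx]
    exact div_pos (by linarith) hNpos
  have hx1 : x ≤ 1 / 24 := by
    rw [hx, div_le_iff₀ hNpos]
    nlinarith
  have hxN : x * N = Lam := by
    rw [hx]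
    exact div_mul_cancel₀ _ hNpos.ne'
  obtain ⟨q, hq⟩ : ∃ q, q = 1 - x := ⟨_, rfl⟩
  have hqN : qN Lam N = q := by
    rw [hq, hx]
    rfl
  have hq0 : 0 < q := by
    rw [hq]
    linarith
  have hq1 : q < 1 := by
    rw [hq]
    linarith
  have hqpow : q ^ N < 1 := pow_lt_one₀ hq0.le hq1 hNne
  have hZ : 0 < 1 - q ^ N := by linarith
  have htw : ∀ j, tw Lam N j = (1 - q) * q ^ j / (1 - q ^ N) := by
    intro j
    unfold tw
    rw [hqN]
  have hnn : ∀ j, 0 ≤ tw Lam N j := by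
    intro j
    rw [htw]
    exact div_nonneg (mul_nonneg (by linarith) (pow_nonneg hq0.le _)) hZ.le
  refine ⟨hnn, ?_, ?_⟩
  · rw [Finset.sum_range (fun j => tw Lam N j) |>.symm, Finset.sum_congr rfl (fun j _ => htw j), ← Finset.sum_div,
      Tail_geom, div_self hZ.ne']
  · intro t ht0 ht
    obtain ⟨j0, hj0⟩ : ∃ j0, j0 = ⌈t / x⌉₊ := ⟨_, rfl⟩
    have hj1 : (j0 : ℝ) < t / x + 1 := by
      rw [hj0]
      exact Nat.ceil_lt_add_one (div_nonneg ht0 hx0.le)
    have hj2 : t / x ≤ j0 := by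
      rw [hj0]
      exact Nat.le_ceil _
    have hj3 : (j0 : ℝ) * x ≤ t + x := by
      have h1 : (j0 : ℝ) * x ≤ (t / x + 1) * x := mul_le_mul_of_nonneg_right hj1.le hx0.le
      rw [add_mul, div_mul_cancel₀ _ hx0.ne', one_mul] at h1
      exact h1
    have hj4 : t ≤ (j0 : ℝ) * x := (div_le_iff₀ hx0).1 hj2
    have hjN : j0 ≤ N := by
      have h1 : (j0 : ℝ) * x ≤ (N : ℝ) * x := by
        rw [mul_comm (N : ℝ) x, hxN]
        linarith
      have h2 : (j0 : ℝ) ≤ N := le_of_mul_le_mul_right h1 hx0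
      exact_mod_cast h2
    have htx : t * x ≤ 1 / 8 := by
      have h1 : t * x ≤ Lam / 8 * x := mul_le_mul_of_nonneg_right ht hx0.le
      have h2 : Lam / 8 * x * N ≤ 1 / 8 * N := by
        have e : Lam / 8 * x * N = Lam / 8 * (x * N) := by ring
        rw [e, hxN]
        nlinarith
      have h3 : Lam / 8 * x ≤ 1 / 8 := le_of_mul_le_mul_right h2 hNpos
      linarith
    have hlow := Tail_low x t j0 hx0 hx1 ht0 htx hj3
    rw [← hq] at hlow
    have hup : q ^ N ≤ Real.exp (-Lam) := by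
      have h1 : q ≤ Real.exp (-x) := by
        rw [hq]
        have := Real.add_one_le_exp (-x)
        linarith
      calc q ^ N ≤ Real.exp (-x) ^ N := pow_le_pow_left₀ hq0.le h1 N
        _ = Real.exp (-Lam) := by
          rw [← Real.exp_nat_mul]
          congr 1
          rw [← hxN]
          ring
    have hle : q ^ N ≤ q ^ j0 := pow_le_pow_of_le_one hq0.le hq1.le hjN
    have hsum : q ^ j0 - q ^ N ≤ ∑ j ∈ Ico j0 N, tw Lam N j := by
      rw [Finset.sum_congr rfl (fun j _ => htw j), ← Finset.sum_div, Tail_Ico q j0 N hjN, le_div_iff₀ hZ]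
      have h1 : 0 ≤ q ^ j0 - q ^ N := by linarith
      have h2 : 0 ≤ q ^ N := pow_nonneg hq0.le N
      nlinarith
    have hsum2 : ∑ j ∈ Ico j0 N, tw Lam N j ≤
        ∑ j : Fin N, tw Lam N (j : ℕ) * ind (t ≤ Lam * ((j : ℕ) : ℝ) / (N : ℝ)) := by
      rw [Finset.sum_range (fun j => tw Lam N j * ind (t ≤ Lam * (j : ℝ) / (N : ℝ))) |>.symm]
      have hsub : Ico j0 N ⊆ range N := fun j hj => Finset.mem_range.2 (Finset.mem_Ico.1 hj).2
      refine le_trans (Finset.sum_le_sum (fun j hj => ?_))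
        (Finset.sum_le_sum_of_subset_of_nonneg hsub fun j _ _ => mul_nonneg (hnn j) (ind_nonneg _))
      have hj : (j0 : ℝ) ≤ j := by exact_mod_cast (Finset.mem_Ico.1 hj).1
      have h1 : t ≤ Lam * (j : ℝ) / (N : ℝ) := by
        have e : Lam * (j : ℝ) / (N : ℝ) = (j : ℝ) * x := by
          rw [hx]
          ring
        rw [e]
        exact le_trans hj4 (mul_le_mul_of_nonneg_right hj hx0.le)
      rw [ind_true h1, mul_one]
    linarith

end Pool.Agent.AM.G
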