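import Pool.Agent.Lib.AM.G.Dk
import Pool.Agent.Lib.AM.G.Gk
import Pool.Agent.Lib.AM.G.Pm
import Pool.Agent.Lib.AM.G.Sure
import Pool.Agent.Lib.AM.G.RadM
import Pool.Agent.Lib.AM.G.Count
import Pool.Agent.Lib.AM.G.Tail
import Pool.Agent.Lib.AM.G.Ind
import Pool.Agent.Lib.AM.G.Cov
import Pool.Agent.Lib.AM.G.Noise
import Pool.Agent.Lib.AM.G.FarN
import Pool.Agent.Lib.AM.G.Far
import Pool.Agent.Lib.AM.G.Blk

set_option linter.all false

/-! AM, part G: assembly: the blocks `blk` satisfy `Blk.OK` (no hypotheses left). -/

namespace Pool.Agent.AM.G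

theorem all_dk : DkProp := dkProp

theorem all_gk : GkProp := gkProp

theorem all_pm : PmProp := pmProp all_dk all_gk

theorem all_sure : SureProp := sureProp all_dk all_gk

theorem all_rad : RadProp := radProp all_dk all_gk all_sure

theorem all_count : CountProp := countProp

theorem all_cov : CovProp := covProp tailProp indProp

theorem all_blk : BlkProp :=
  blkProp all_pm all_sure all_rad all_count all_cov noiseProp (farProp farNProp)

end Pool.Agent.AM.G
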