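import Pool.Agent.Lib.AM.SpecE
import Pool.Agent.Lib.MP_a4c1f4_lc.N0

set_option linter.all false

/-! # AM, module G/Dk: the contraction exists -/

namespace Pool.Agent.AM.G

open Finset Pool.Agent.MP_a4c1f4_lc Pool.Agent.AM

theorem dkProp : DkProp := by
  intro X _ _ _ D r hD hr
  have hm : (0 : ℝ) < (Fintype.card X : ℝ) := by
    exact_mod_cast Fintype.card_pos
  have hex : ∃ D' : X → X → ℝ, PM D' ∧ (∀ x y, D' x y ≤ D x y) ∧
      (∀ x y, D x y ≤ D' x y + r / 8) ∧
      (∀ x y, D x y ≤ r / (8 * (Fintype.card X : ℝ)) → D' x y = 0) := by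
    obtain ⟨D', h1, h2, h3, h4⟩ := contract X D (r / (8 * (Fintype.card X : ℝ))) hD (by positivity)
    refine ⟨D', h1, h2, fun x y => ?_, h4⟩
    have e : (Fintype.card X : ℝ) * (r / (8 * (Fintype.card X : ℝ))) = r / 8 := by
      field_simp
    have := h3 x y
    rwa [e] at this
  have hDk : Dk D r = hex.choose := by
    unfold Dk
    exact dif_pos hex
  rw [hDk]
  exact hex.choose_spec

end Pool.Agent.AM.G
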