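import Pool.Agent.Lib.AM.G.Cnt

set_option linter.all false

/-!
# AM, part G: probability of the coverage event

The values of the sources are independent with the truncated geometric law `tw`. With probability
at least `1/2` every ball `B(y, de)` contains a source with value at least
`ln |B(y, de)| - b1` (in units of the mean).
-/

namespace Pool.Agent.AM.G

open Finset Pool.Agent.MP_a4c1f4_lc

section
variable {Lam : ℝ} {N : ℕ}

theorem q_facts (hLam : 24 ≤ Lam) (hN : Lam ^ 2 ≤ N) :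
    0 < (N : ℝ) ∧ 0 < Lam / N ∧ Lam / N ≤ 1 / Lam ∧ Lam / N ≤ 1 / 24 ∧ 0 < qN Lam N ∧
      qN Lam N < 1 := by
  have h0 : (0 : ℝ) < N := lt_of_lt_of_le (by positivity) hN
  have h1 : Lam / N ≤ 1 / Lam := by
    rw [div_le_div_iff₀ h0 (by linarith)]
    nlinarith
  have h2 : 1 / Lam ≤ 1 / 24 := one_div_le_one_div_of_le (by norm_num) hLam
  have h3 : 0 < Lam / N := div_pos (by linarith) h0
  refine ⟨h0, h3, h1, h1.trans h2, ?_, ?_⟩
  · unfold qN; linarith
  · unfold qN; linarith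

theorem qN_pow_le (hLam : 24 ≤ Lam) (hN : Lam ^ 2 ≤ N) : qN Lam N ^ N ≤ Real.exp (-Lam) := by
  obtain ⟨h0, h1, h2, h3, h4, h5⟩ := q_facts hLam hN
  have h6 : qN Lam N ≤ Real.exp (-(Lam / N)) := by
    have := Real.add_one_le_exp (-(Lam / N))
    unfold qN
    linarith
  calc qN Lam N ^ N ≤ Real.exp (-(Lam / N)) ^ N := pow_le_pow_left₀ h4.le h6 N
    _ = Real.exp (-Lam) := by
      rw [← Real.exp_nat_mul]
      congr 1
      field_simp

theorem qN_pow_lt (hLam : 24 ≤ Lam) (hN : Lam ^ 2 ≤ N) : qN Lam N ^ N < 1 := by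
  refine lt_of_le_of_lt (qN_pow_le hLam hN) ?_
  rw [Real.exp_lt_one_iff]
  linarith

theorem tw_nonneg' (hLam : 24 ≤ Lam) (hN : Lam ^ 2 ≤ N) (j : ℕ) : 0 ≤ tw Lam N j := by
  obtain ⟨h0, h1, h2, h3, h4, h5⟩ := q_facts hLam hN
  have h6 := qN_pow_lt hLam hN
  unfold tw
  exact div_nonneg (mul_nonneg (by linarith) (pow_nonneg h4.le j)) (by linarith)

/-- Sum of the weights over an interval. -/
theorem tw_sum_Ico (hLam : 24 ≤ Lam) (hN : Lam ^ 2 ≤ N) {a : ℕ} (ha : a ≤ N) :
    ∑ j ∈ Ico a N, tw Lam N j = (qN Lam N ^ a - qN Lam N ^ N) / (1 - qN Lam N ^ N) := by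
  obtain ⟨h0, h1, h2, h3, h4, h5⟩ := q_facts hLam hN
  have h7 : ∀ n, a ≤ n → ∑ j ∈ Ico a n, (1 - qN Lam N) * qN Lam N ^ j =
      qN Lam N ^ a - qN Lam N ^ n := by
    intro n hn
    induction n, hn using Nat.le_induction with
    | base => simp
    | succ n hn ih =>
      rw [Finset.sum_Ico_succ_top hn, ih, pow_succ]
      ring
  unfold tw
  rw [← Finset.sum_div, h7 N ha]

theorem tw_sum' (hLam : 24 ≤ Lam) (hN : Lam ^ 2 ≤ N) : ∑ j : Fin N, tw Lam N (j : ℕ) = 1 := by
  have h6 := qN_pow_lt hLam hN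
  rw [Fin.sum_univ_eq_sum_range (fun j => tw Lam N j) N, Finset.range_eq_Ico,
    tw_sum_Ico hLam hN (Nat.zero_le N), pow_zero, div_self (by linarith)]

/-- Tail of the weights. -/
theorem tw_tail (hLam : 24 ≤ Lam) (hN : Lam ^ 2 ≤ N) {A : ℝ} (hA : 0 ≤ A) (hAL : 8 * A ≤ Lam) :
    Real.exp (-A - 1 / 4) - Real.exp (-Lam) ≤
      ∑ j : Fin N, tw Lam N (j : ℕ) * ind (A ≤ Lam * ((j : ℕ) : ℝ) / N) := by
  obtain ⟨h0, h1, h2, h3, h4, h5⟩ := q_facts hLam hN
  have h6 := qN_pow_lt hLam hN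
  have h7 := qN_pow_le hLam hN
  have hLp : 0 < Lam := by linarith
  set a : ℕ := ⌈A * N / Lam⌉₊ with ha
  have ha1 : A * N / Lam ≤ a := Nat.le_ceil _
  have ha2 : (a : ℝ) < A * N / Lam + 1 := Nat.ceil_lt_add_one (by positivity)
  have haN : a ≤ N := by
    have : (a : ℝ) < N + 1 := by
      refine ha2.trans_le ?_
      have : A * N / Lam ≤ N := by
        rw [div_le_iff₀ hLp]
        nlinarith
      linarith
    have : (a : ℝ) < ((N + 1 : ℕ) : ℝ) := by push_cast; exact this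
    exact Nat.lt_succ_iff.1 (by exact_mod_cast this)
  have hqa : Real.exp (-A - 1 / 4) ≤ qN Lam N ^ a := by
    set x := Lam / N with hxdef
    have hx : Real.log (qN Lam N) ≥ -(x + 24 / 23 * x ^ 2) := by
      have h8 := Real.one_sub_inv_le_log_of_pos h4
      have h9 : (qN Lam N)⁻¹ ≤ 1 + (x + 24 / 23 * x ^ 2) := by
        rw [inv_le_iff_one_le_mul₀ h4]
        have h10 : qN Lam N = 1 - x := rfl
        rw [h10]
        have h11 : 0 ≤ x ^ 2 * (1 - 24 * x) := mul_nonneg (sq_nonneg x) (by linarith)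
        nlinarith
      linarith
    have h11 : (a : ℝ) * x ≤ A + x := by
      have h12 : (a : ℝ) * x ≤ (A * N / Lam + 1) * x := mul_le_mul_of_nonneg_right ha2.le h1.le
      have h13 : (A * N / Lam + 1) * x = A + x := by
        rw [hxdef]
        field_simp
      linarith
    have h14 : A * x ≤ 1 / 8 := by
      have h15 : A * x ≤ A * (1 / Lam) := mul_le_mul_of_nonneg_left h2 hA
      have h16 : A * (1 / Lam) ≤ 1 / 8 := by
        rw [mul_one_div, div_le_div_iff₀ hLp (by norm_num)]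
        linarith
      linarith
    have h17 : (a : ℝ) * (x + 24 / 23 * x ^ 2) ≤ A + 1 / 4 := by
      have h18 : (a : ℝ) * (x + 24 / 23 * x ^ 2) = ((a : ℝ) * x) * (1 + 24 / 23 * x) := by ring
      rw [h18]
      have h19 : ((a : ℝ) * x) * (1 + 24 / 23 * x) ≤ (A + x) * (1 + 24 / 23 * x) :=
        mul_le_mul_of_nonneg_right h11 (by positivity)
      nlinarith
    rw [← Real.exp_log (pow_pos h4 a), Real.log_pow]
    apply Real.exp_le_exp.2
    have ha0 : (0 : ℝ) ≤ a := Nat.cast_nonneg a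
    nlinarith [mul_le_mul_of_nonneg_left hx.le ha0]
  have hsum : qN Lam N ^ a - qN Lam N ^ N ≤ ∑ j ∈ Ico a N, tw Lam N j := by
    rw [tw_sum_Ico hLam hN haN]
    have h8 : 0 ≤ qN Lam N ^ a - qN Lam N ^ N :=
      sub_nonneg.2 (pow_le_pow_of_le_one h4.le h5.le haN)
    have h9 : 0 < 1 - qN Lam N ^ N := by linarith
    rw [le_div_iff₀ h9]
    have h10 : 0 ≤ qN Lam N ^ N := pow_nonneg h4.le N
    nlinarith
  have hle : ∑ j ∈ Ico a N, tw Lam N j ≤
      ∑ j : Fin N, tw Lam N (j : ℕ) * ind (A ≤ Lam * ((j : ℕ) : ℝ) / N) := by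
    rw [Fin.sum_univ_eq_sum_range (fun j => tw Lam N j * ind (A ≤ Lam * ((j : ℕ) : ℝ) / N)) N]
    calc ∑ j ∈ Ico a N, tw Lam N j
        = ∑ j ∈ Ico a N, tw Lam N j * ind (A ≤ Lam * ((j : ℕ) : ℝ) / N) := by
          refine Finset.sum_congr rfl fun j hj => ?_
          rw [Finset.mem_Ico] at hj
          have hj1 : (a : ℝ) ≤ (j : ℝ) := by exact_mod_cast hj.1
          rw [ind_true, mul_one]
          rw [le_div_iff₀ h0]
          rw [div_le_iff₀ hLp] at ha1
          nlinarith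
      _ ≤ ∑ j ∈ range N, tw Lam N j * ind (A ≤ Lam * ((j : ℕ) : ℝ) / N) := by
          refine Finset.sum_le_sum_of_subset_of_nonneg ?_ fun j _ _ =>
            mul_nonneg (tw_nonneg' hLam hN j) (ind_nonneg _)
          intro j hj
          rw [Finset.mem_Ico] at hj
          exact Finset.mem_range.2 hj.2
  linarith

end

section
variable {X : Type} [Fintype X] [DecidableEq X] {Lam : ℝ} {N : ℕ}

theorem lw_nonneg' (hLam : 24 ≤ Lam) (hN : Lam ^ 2 ≤ N) (g : X → Fin N) : 0 ≤ lw Lam g :=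
  Finset.prod_nonneg fun z _ => tw_nonneg' hLam hN _

theorem lw_sum' (hLam : 24 ≤ Lam) (hN : Lam ^ 2 ≤ N) : ∑ g : X → Fin N, lw Lam g = 1 := by
  unfold lw
  have := Finset.prod_univ_sum (fun _ : X => (Finset.univ : Finset (Fin N)))
    (fun _ j => tw Lam N (j : ℕ))
  rw [Fintype.piFinset_univ] at this
  rw [← this]
  simp [tw_sum' hLam hN]

/-- All sources of the set `S` have values below `A`. -/
theorem prod_low (hLam : 24 ≤ Lam) (hN : Lam ^ 2 ≤ N) (S : Finset X) (A : ℝ) :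
    ∑ g : X → Fin N, lw Lam g * ind (∀ z ∈ S, ¬ A ≤ Lam * ((g z : ℕ) : ℝ) / N) =
      (1 - ∑ j : Fin N, tw Lam N (j : ℕ) * ind (A ≤ Lam * ((j : ℕ) : ℝ) / N)) ^ S.card := by
  classical
  have h1 : ∀ g : X → Fin N, lw Lam g * ind (∀ z ∈ S, ¬ A ≤ Lam * ((g z : ℕ) : ℝ) / N) =
      ∏ z : X, (tw Lam N (g z : ℕ) * if z ∈ S then
        (1 - ind (A ≤ Lam * ((g z : ℕ) : ℝ) / N)) else 1) := by
    intro g
    rw [Finset.prod_mul_distrib]
    unfold lw
    congr 1
    by_cases h : ∀ z ∈ S, ¬ A ≤ Lam * ((g z : ℕ) : ℝ) / N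
    · rw [ind_true h]
      symm
      refine Finset.prod_eq_one fun z _ => ?_
      by_cases hz : z ∈ S
      · rw [if_pos hz, ind_false (h z hz), sub_zero]
      · rw [if_neg hz]
    · rw [ind_false h]
      push Not at h
      obtain ⟨z, hz, hz2⟩ := h
      symm
      refine Finset.prod_eq_zero (Finset.mem_univ z) ?_
      rw [if_pos hz, ind_true hz2, sub_self]
  simp_rw [h1]
  have h2 := Finset.prod_univ_sum (fun _ : X => (Finset.univ : Finset (Fin N)))
    (fun z j => tw Lam N (j : ℕ) * if z ∈ S then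
        (1 - ind (A ≤ Lam * ((j : ℕ) : ℝ) / N)) else 1)
  rw [Fintype.piFinset_univ] at h2
  rw [← h2]
  have h3 : ∀ z : X, (∑ j : Fin N, tw Lam N (j : ℕ) * if z ∈ S then
        (1 - ind (A ≤ Lam * ((j : ℕ) : ℝ) / N)) else 1) =
      if z ∈ S then (1 - ∑ j : Fin N, tw Lam N (j : ℕ) * ind (A ≤ Lam * ((j : ℕ) : ℝ) / N))
        else 1 := by
    intro z
    by_cases hz : z ∈ S
    · simp only [if_pos hz, mul_sub, mul_one, Finset.sum_sub_distrib, tw_sum' hLam hN]
    · simp only [if_neg hz, mul_one, tw_sum' hLam hN]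
  simp_rw [h3]
  rw [Finset.prod_ite_mem]
  simp

/-- The coverage event has probability at least `1/2`. -/
theorem cov_prob (hLam : 24 ≤ Lam) (hN : Lam ^ 2 ≤ N) {D : X → X → ℝ} (hD : PM D)
    {de b1 L : ℝ} (hde : 0 ≤ de) (hcard : (Fintype.card X : ℝ) * Real.exp (-Lam) ≤ 1 / 100)
    (hL : Real.log (Fintype.card X : ℝ) ≤ L) (hL8 : 8 * L ≤ Lam)
    (hb0 : 0 ≤ b1) (hb : L + 1 ≤ Real.exp (b1 - 1 / 4)) :
    1 / 2 ≤ ∑ g : X → Fin N, lw Lam g * ind (∀ y, ∃ z, D y z ≤ de ∧
      Real.log (nb D de y : ℝ) - b1 ≤ Lam * ((g z : ℕ) : ℝ) / N) := by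
  classical
  obtain ⟨hN0, h1, h2, h3, h4, h5⟩ := q_facts hLam hN
  set S : X → Finset X := fun y => Finset.univ.filter (fun w => D w y ≤ de) with hS
  have hScard : ∀ y, (S y).card = nb D de y := fun y => rfl
  have key : ∀ g : X → Fin N, 1 - ∑ y : X,
      ind (∀ z ∈ S y, ¬ (Real.log (nb D de y : ℝ) - b1) ≤ Lam * ((g z : ℕ) : ℝ) / N) ≤
      ind (∀ y, ∃ z, D y z ≤ de ∧
        Real.log (nb D de y : ℝ) - b1 ≤ Lam * ((g z : ℕ) : ℝ) / N) := by
    intro g
    by_cases h : ∀ y, ∃ z, D y z ≤ de ∧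
        Real.log (nb D de y : ℝ) - b1 ≤ Lam * ((g z : ℕ) : ℝ) / N
    · rw [ind_true h]
      have : 0 ≤ ∑ y : X,
          ind (∀ z ∈ S y, ¬ (Real.log (nb D de y : ℝ) - b1) ≤ Lam * ((g z : ℕ) : ℝ) / N) :=
        Finset.sum_nonneg fun y _ => ind_nonneg _
      linarith
    · rw [ind_false h]
      push Not at h
      obtain ⟨y, hy⟩ := h
      have h6 : ind (∀ z ∈ S y, ¬ (Real.log (nb D de y : ℝ) - b1) ≤
          Lam * ((g z : ℕ) : ℝ) / N) = 1 := by
        apply ind_true
        intro z hz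
        have hz2 : D y z ≤ de := by
          rw [hS] at hz
          simp only [Finset.mem_filter, Finset.mem_univ, true_and] at hz
          rw [hD.symm y z]
          exact hz
        exact not_le.2 (hy z hz2)
      have h7 : ind (∀ z ∈ S y, ¬ (Real.log (nb D de y : ℝ) - b1) ≤
          Lam * ((g z : ℕ) : ℝ) / N) ≤ ∑ y : X,
          ind (∀ z ∈ S y, ¬ (Real.log (nb D de y : ℝ) - b1) ≤ Lam * ((g z : ℕ) : ℝ) / N) :=
        Finset.single_le_sum (f := fun y => ind (∀ z ∈ S y,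
          ¬ (Real.log (nb D de y : ℝ) - b1) ≤ Lam * ((g z : ℕ) : ℝ) / N))
          (fun y _ => ind_nonneg _) (Finset.mem_univ y)
      linarith
  have hstep : 1 - ∑ y : X, (1 - ∑ j : Fin N, tw Lam N (j : ℕ) *
      ind ((Real.log (nb D de y : ℝ) - b1) ≤ Lam * ((j : ℕ) : ℝ) / N)) ^ (S y).card ≤
      ∑ g : X → Fin N, lw Lam g * ind (∀ y, ∃ z, D y z ≤ de ∧
      Real.log (nb D de y : ℝ) - b1 ≤ Lam * ((g z : ℕ) : ℝ) / N) := by
    calc 1 - ∑ y : X, (1 - ∑ j : Fin N, tw Lam N (j : ℕ) *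
          ind ((Real.log (nb D de y : ℝ) - b1) ≤ Lam * ((j : ℕ) : ℝ) / N)) ^ (S y).card
        = ∑ g : X → Fin N, lw Lam g * (1 - ∑ y : X,
          ind (∀ z ∈ S y, ¬ (Real.log (nb D de y : ℝ) - b1) ≤ Lam * ((g z : ℕ) : ℝ) / N)) := by
          simp only [mul_sub, mul_one, Finset.sum_sub_distrib, lw_sum' hLam hN, Finset.mul_sum]
          rw [Finset.sum_comm]
          congr 1
          refine Finset.sum_congr rfl fun y _ => ?_
          rw [prod_low hLam hN]
      _ ≤ _ := Finset.sum_le_sum fun g _ =>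
          mul_le_mul_of_nonneg_left (key g) (lw_nonneg' hLam hN g)
  have hcard1 : ∀ y : X, (1 : ℝ) ≤ (nb D de y : ℝ) := fun y => by
    exact_mod_cast nb_pos hD hde y
  have hbound : ∀ y : X, (1 - ∑ j : Fin N, tw Lam N (j : ℕ) *
      ind ((Real.log (nb D de y : ℝ) - b1) ≤ Lam * ((j : ℕ) : ℝ) / N)) ^ (S y).card ≤
      Real.exp (-(L + 1 - 1 / 100)) := by
    intro y
    set n : ℝ := (nb D de y : ℝ) with hn
    have hn1 : 1 ≤ n := hcard1 y
    set p := ∑ j : Fin N, tw Lam N (j : ℕ) *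
      ind ((Real.log n - b1) ≤ Lam * ((j : ℕ) : ℝ) / N) with hp
    have hp0 : 0 ≤ p := Finset.sum_nonneg fun j _ => mul_nonneg (tw_nonneg' hLam hN _) (ind_nonneg _)
    have hp1 : p ≤ 1 := by
      rw [hp, ← tw_sum' hLam hN]
      refine Finset.sum_le_sum fun j _ => ?_
      exact mul_le_of_le_one_right (tw_nonneg' hLam hN _) (ind_le_one _)
    rcases le_or_gt (Real.log n - b1) 0 with hA | hA
    · have hp2 : p = 1 := by
        rw [hp, ← tw_sum' hLam hN]
        refine Finset.sum_congr rfl fun j _ => ?_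
        rw [ind_true, mul_one]
        refine hA.trans ?_
        have : 0 ≤ Lam := by linarith
        positivity
      rw [hp2, sub_self, hScard, zero_pow]
      · exact (Real.exp_pos _).le
      · have := nb_pos hD hde y
        omega
    · have hnc : n ≤ Fintype.card X := by
        rw [hn]
        exact_mod_cast nb_le_card de y
      have hlogn : Real.log n ≤ L := (Real.log_le_log (by linarith) hnc).trans hL
      have h6 := tw_tail hLam hN (A := Real.log n - b1) hA.le (by linarith)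
      have h7 : Real.exp (-(Real.log n - b1) - 1 / 4) = Real.exp (b1 - 1 / 4) / n := by
        rw [show -(Real.log n - b1) - 1 / 4 = (b1 - 1 / 4) - Real.log n by ring, Real.exp_sub,
          Real.exp_log (by linarith)]
      rw [h7] at h6
      have h8 : n * p ≥ L + 1 - 1 / 100 := by
        have h9 : n * (Real.exp (b1 - 1 / 4) / n - Real.exp (-Lam)) ≤ n * p :=
          mul_le_mul_of_nonneg_left h6 (by linarith)
        have h10 : n * (Real.exp (b1 - 1 / 4) / n - Real.exp (-Lam)) =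
            Real.exp (b1 - 1 / 4) - n * Real.exp (-Lam) := by
          field_simp
        have h11 : n * Real.exp (-Lam) ≤ 1 / 100 :=
          (mul_le_mul_of_nonneg_right hnc (Real.exp_pos _).le).trans hcard
        linarith
      have h9 : (1 - p) ^ (S y).card ≤ Real.exp (-(n * p)) := by
        have h10 : 1 - p ≤ Real.exp (-p) := by
          have := Real.add_one_le_exp (-p)
          linarith
        calc (1 - p) ^ (S y).card ≤ Real.exp (-p) ^ (S y).card :=
              pow_le_pow_left₀ (by linarith) h10 _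
          _ = Real.exp (-(n * p)) := by
              rw [← Real.exp_nat_mul, hScard, ← hn]
              congr 1
              ring
      exact h9.trans (Real.exp_le_exp.2 (by linarith))
  have hsum : ∑ y : X, (1 - ∑ j : Fin N, tw Lam N (j : ℕ) *
      ind ((Real.log (nb D de y : ℝ) - b1) ≤ Lam * ((j : ℕ) : ℝ) / N)) ^ (S y).card ≤ 1 / 2 := by
    refine (Finset.sum_le_sum fun y _ => hbound y).trans ?_
    rw [Finset.sum_const, Finset.card_univ, nsmul_eq_mul]
    rcases Nat.eq_zero_or_pos (Fintype.card X) with h0 | h0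
    · rw [h0]; norm_num
    · have h6 : (0 : ℝ) < (Fintype.card X : ℝ) := by exact_mod_cast h0
      have h7 : (Fintype.card X : ℝ) ≤ Real.exp L := by
        rw [← Real.log_le_iff_le_exp h6]
        exact hL
      have h8 : (Fintype.card X : ℝ) * Real.exp (-(L + 1 - 1 / 100)) ≤
          Real.exp L * Real.exp (-(L + 1 - 1 / 100)) :=
        mul_le_mul_of_nonneg_right h7 (Real.exp_pos _).le
      have h9 : Real.exp L * Real.exp (-(L + 1 - 1 / 100)) = Real.exp (-(99 / 100)) := by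
        rw [← Real.exp_add]
        congr 1
        ring
      have h10 : Real.exp (-(99 / 100)) ≤ 1 / 2 := by
        rw [Real.exp_neg, inv_le_comm₀ (Real.exp_pos _) (by norm_num)]
        have := Real.add_one_le_exp (99 / 100 : ℝ)
        have h11 : Real.exp (99 / 100 : ℝ) = Real.exp (99 / 200) * Real.exp (99 / 200) := by
          rw [← Real.exp_add]; norm_num
        have h12 := Real.add_one_le_exp (99 / 200 : ℝ)
        nlinarith
      linarith
  linarith

end

end Pool.Agent.AM.G
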